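import Pool.Agent.V7H55.ZC.Lv
import Pool.Agent.Helper919.NonRes

/-! The Dirichlet character of a quadratic field. -/

set_option autoImplicit false

namespace Pool.Agent.V7H55.ZC

open NumberField Pool.Agent.V7H55.GG Pool.Agent.V7H55.LT Pool.Agent.W401.Cheb

/-- the function `l ↦ (k / l)` on odd `l` -/
def kz (k : ℤ) (l : ℕ) : ℤ := if Odd l then jacobiSym k l else 0

theorem kz_mod (k : ℤ) (l : ℕ) : kz k (l % (4 * k.natAbs)) = kz k l := by
  unfold kz
  have hpar : Odd (l % (4 * k.natAbs)) ↔ Odd l := by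
    rw [Nat.odd_iff, Nat.odd_iff]
    have h1 : 2 ∣ 4 * k.natAbs := ⟨2 * k.natAbs, by ring⟩
    rw [Nat.mod_mod_of_dvd _ h1]
  by_cases h : Odd l
  · rw [if_pos (hpar.2 h), if_pos h]
    exact (jacobiSym.mod_right k h).symm
  · rw [if_neg (fun h2 => h (hpar.1 h2)), if_neg h]

theorem kz_mul (k : ℤ) (a b : ℕ) : kz k (a * b) = kz k a * kz k b := by
  unfold kz
  by_cases ha : Odd a
  · by_cases hb : Odd b
    · rw [if_pos ha, if_pos hb, if_pos (ha.mul hb)]
      have h1 : NeZero a := ⟨by rintro rfl; exact absurd ha (by decide)⟩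
      have h2 : NeZero b := ⟨by rintro rfl; exact absurd hb (by decide)⟩
      exact jacobiSym.mul_right _ _ _
    · rw [if_neg hb, if_neg (fun h => hb (Nat.Odd.of_mul_left (by rwa [mul_comm] at h))), mul_zero]
  · rw [if_neg ha, if_neg (fun h => ha (Nat.Odd.of_mul_left h)), zero_mul]

theorem kz_one (k : ℤ) : kz k 1 = 1 := by
  unfold kz
  rw [if_pos odd_one, jacobiSym.one_right]

theorem kz_nonunit {k : ℤ} (l : ℕ) (h : ¬ l.Coprime (4 * k.natAbs)) : kz k l = 0 := by
  unfold kz
  split_ifs with ho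
  · have h1 : NeZero l := ⟨by rintro rfl; exact absurd ho (by decide)⟩
    rw [jacobiSym.eq_zero_iff_not_coprime]
    intro h2
    apply h
    apply Nat.Coprime.mul_right
    · have h3 : Nat.Coprime l 2 := by
        rw [Nat.coprime_two_right]
        exact ho
      have : (4 : ℕ) = 2 ^ 2 := by norm_num
      rw [this]
      exact h3.pow_right 2
    · have h3 : Nat.Coprime k.natAbs l := by
        rw [Int.gcd_eq_natAbs, Int.natAbs_natCast] at h2
        exact h2
      exact Nat.Coprime.symm h3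
  · rfl

/-- the character `l ↦ (k / l)` modulo `4k` -/
noncomputable def kchi (k : ℤ) [NeZero (4 * k.natAbs)] :
    DirichletCharacter ℂ (4 * k.natAbs) where
  toFun a := ((kz k a.val : ℤ) : ℂ)
  map_one' := by
    rw [ZMod.val_one_eq_one_mod, kz_mod, kz_one]
    simp
  map_mul' a b := by
    rw [ZMod.val_mul, kz_mod, kz_mul]
    push_cast
    ring
  map_nonunit' a ha := by
    have h : kz k a.val = 0 := by
      apply kz_nonunit
      intro h2
      apply ha
      rw [← ZMod.natCast_zmod_val a]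
      exact (ZMod.isUnit_iff_coprime a.val (4 * k.natAbs)).2 h2
    rw [h]
    simp

theorem kchi_natCast (k : ℤ) [NeZero (4 * k.natAbs)] (l : ℕ) :
    kchi k (l : ZMod (4 * k.natAbs)) = ((kz k l : ℤ) : ℂ) := by
  change ((kz k ((l : ZMod (4 * k.natAbs)).val) : ℤ) : ℂ) = _
  rw [ZMod.val_natCast, kz_mod]

theorem kchi_ne_one {k : ℤ} [NeZero (4 * k.natAbs)] (h : ¬ IsSquare k) : kchi k ≠ 1 := by
  obtain ⟨d, hd, hj⟩ := Helper919.exists_jacobi_neg_one k h
  intro h1
  have h2 := kchi_natCast k d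
  have h3 : kz k d = -1 := by
    unfold kz
    rw [if_pos hd, hj]
  rw [h3] at h2
  have h4 : IsUnit (d : ZMod (4 * k.natAbs)) := by
    by_contra hu
    have h5 := (kchi k).map_nonunit hu
    rw [h5] at h2
    norm_num at h2
  rw [h1, MulChar.one_apply h4] at h2
  norm_num at h2

/-- What we need to know about a subgroup of the Galois group: a character that detects
some Frobenius elements outside it. -/
def Detects {M : Type} [Field M] [NumberField M] (H : Subgroup Gal(M/ℚ)) (N : ℕ)
    (χ : DirichletCharacter ℂ N) : Prop :=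
  ∀ r : ℕ, r.Prime → ¬ r ∣ N → ∃ _ : Fact r.Prime, ∃ (φ : 𝓞 M →+* AlgebraicClosure (ZMod r))
    (σ : Gal(M/ℚ)), HasFrob r φ σ ∧ (χ (r : ZMod N) ≠ 1 → σ ∉ H)

/-- **The character of a subgroup of index two.** -/
theorem quad_char {M : Type} [Field M] [NumberField M] [IsGalois ℚ M] (H : Subgroup Gal(M/ℚ))
    (hH : H.index = 2) (u : 𝓞 M) (hu : ∀ ν : Gal(M/ℚ), ν (u : M) = u ↔ ν ∈ H) {U : ℝ}
    (hU : ∀ w : InfinitePlace M, w (u : M) ≤ U) :
    ∃ (N : ℕ) (χ : DirichletCharacter ℂ N), 0 < N ∧ (N : ℝ) ≤ 16 * U ^ 2 ∧ χ ≠ 1 ∧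
      Detects H N χ := by
  classical
  have hmul := fun a b => Subgroup.mul_mem_iff_of_index_two hH (a := a) (b := b)
  obtain ⟨g, hg⟩ : ∃ g, g ∉ H := by
    by_contra hcon
    push Not at hcon
    have : H = ⊤ := by
      rw [Subgroup.eq_top_iff']
      exact hcon
    rw [this, Subgroup.index_top] at hH
    omega
  set s : 𝓞 M := u - g • u with hs
  have hsM : (s : M) = u - g (u : M) := by
    have : (s : M) = algebraMap (𝓞 M) M s := rfl
    rw [this, hs, map_sub]
    rfl
  have h1 : ∀ σ ∈ H, σ (s : M) = s := by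
    intro σ hσ
    have h2 : g⁻¹ * σ * g ∈ H := by
      have hg' : g⁻¹ ∉ H := fun h => hg (by simpa using H.inv_mem h)
      have h3 : g⁻¹ * σ ∉ H := by
        rw [hmul]
        intro h
        exact hg' (h.mpr hσ)
      rw [hmul]
      exact ⟨fun h => absurd h h3, fun h => absurd h hg⟩
    have h3 := (hu _).mpr h2
    have h4 : σ (g (u : M)) = g (u : M) := by
      have h5 : g ((g⁻¹ * σ * g) (u : M)) = g (u : M) := by rw [h3]
      have h6 : g ((g⁻¹ * σ * g) (u : M)) = σ (g (u : M)) := by
        change (g * (g⁻¹ * σ * g)) (u : M) = (σ * g) (u : M)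
        congr 1
        group
      rw [← h6, h5]
    rw [hsM, map_sub, (hu σ).mpr hσ, h4]
  have h2 : ∀ σ, σ ∉ H → σ (s : M) = -s := by
    intro σ hσ
    have h3 : g⁻¹ * σ ∈ H := by
      have hg' : g⁻¹ ∉ H := fun h => hg (by simpa using H.inv_mem h)
      rw [hmul]
      exact ⟨fun h => absurd h hg', fun h => absurd h hσ⟩
    have h4 : σ * g ∈ H := by
      rw [hmul]
      exact ⟨fun h => absurd h hσ, fun h => absurd h hg⟩
    have h5 : σ (u : M) = g (u : M) := by
      have h6 : g ((g⁻¹ * σ) (u : M)) = σ (u : M) := by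
        change (g * (g⁻¹ * σ)) (u : M) = σ (u : M)
        congr 1
        group
      rw [← h6, (hu _).mpr h3]
    have h6 : σ (g (u : M)) = u := (hu _).mpr h4
    rw [hsM, map_sub, h5, h6]
    ring
  have hs0 : (s : M) ≠ 0 := by
    rw [hsM]
    intro h
    exact hg ((hu g).mp (sub_eq_zero.mp h).symm)
  -- the square
  obtain ⟨d, hd⟩ : ∃ d : ℤ, (d : M) = (s : M) ^ 2 := by
    have h3 : (s : M) ^ 2 ∈ (⊥ : IntermediateField ℚ M) := by
      rw [← IsGalois.fixedField_top (F := ℚ) (E := M), IntermediateField.mem_fixedField_iff]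
      intro σ _
      rw [map_pow]
      by_cases h : σ ∈ H
      · rw [h1 σ h]
      · rw [h2 σ h]; ring
    rw [IntermediateField.mem_bot] at h3
    obtain ⟨q, hq⟩ := h3
    have h4 : IsIntegral ℤ q := by
      have h5 : IsIntegral ℤ (algebraMap ℚ M q) := by
        rw [hq]
        exact s.isIntegral_coe.pow 2
      exact (isIntegral_algebraMap_iff (algebraMap ℚ M).injective).mp h5
    obtain ⟨d, hd⟩ := (IsIntegrallyClosed.isIntegral_iff (R := ℤ)).mp h4
    refine ⟨d, ?_⟩
    rw [← hq, ← hd]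
    simp
  have hd0 : d ≠ 0 := by
    rintro rfl
    rw [Int.cast_zero] at hd
    exact hs0 (pow_eq_zero_iff two_ne_zero |>.mp hd.symm)
  have hdsq : ¬ IsSquare d := by
    rintro ⟨a, rfl⟩
    have h3 : ((s : M) - a) * ((s : M) + a) = 0 := by
      push_cast at hd
      linear_combination -hd
    have h4 : g (s : M) = s := by
      rcases mul_eq_zero.mp h3 with h | h
      · rw [sub_eq_zero.mp h, map_intCast]
      · rw [eq_neg_of_add_eq_zero_left h, map_neg, map_intCast]
    rw [h2 g hg] at h4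
    have h5 : (2 : M) * s = 0 := by linear_combination -h4
    rcases mul_eq_zero.mp h5 with h | h
    · exact two_ne_zero h
    · exact hs0 h
  have hN0 : 0 < 4 * d.natAbs := by
    have := Int.natAbs_pos.mpr hd0
    omega
  have : NeZero (4 * d.natAbs) := ⟨hN0.ne'⟩
  refine ⟨4 * d.natAbs, kchi d, hN0, ?_, kchi_ne_one hdsq, ?_⟩
  · obtain ⟨w⟩ : Nonempty (InfinitePlace M) := inferInstance
    have h3 : w (s : M) ≤ 2 * U := by
      rw [hsM]
      have h4 := conj_le hU g w
      have h5 := hU w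
      have h6 : w ((u : M) - g (u : M)) ≤ w (u : M) + w (g (u : M)) := by
        rw [sub_eq_add_neg]
        refine (AbsoluteValue.add_le w.1 _ _).trans (le_of_eq ?_)
        have : w.1 (-(g (u : M))) = w.1 (g (u : M)) := by
          exact AbsoluteValue.map_neg w.1 _
        rw [this]
        rfl
      linarith
    have h4 : w ((d : ℤ) : M) = ((d.natAbs : ℕ) : ℝ) := by
      rw [← InfinitePlace.norm_embedding_eq, map_intCast, Complex.norm_intCast, Nat.cast_natAbs,
        Int.cast_abs]
    have h5 : ((d.natAbs : ℕ) : ℝ) = w (s : M) ^ 2 := by rw [← h4, hd, map_pow]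
    have h6 : w (s : M) ^ 2 ≤ (2 * U) ^ 2 := pow_le_pow_left₀ (apply_nonneg w _) h3 2
    push_cast
    rw [h5]
    nlinarith
  · intro r hr hrN
    have hrF : Fact r.Prime := ⟨hr⟩
    obtain ⟨φ⟩ := exists_hom M r
    obtain ⟨σ, hσ⟩ := exists_frob_all φ
    refine ⟨hrF, φ, σ, hσ, ?_⟩
    intro hχ hσH
    apply hχ
    have hr2 : r ≠ 2 := by
      rintro rfl
      exact hrN ⟨2 * d.natAbs, by ring⟩
    have hodd : Odd r := hr.odd_of_ne_two hr2
    rw [kchi_natCast]
    have h3 : φ s ^ r = φ s := by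
      rw [← hσ s]
      congr 1
      apply RingOfIntegers.ext
      exact h1 σ hσH
    have h4 : φ s ^ 2 = ((d : ℤ) : AlgebraicClosure (ZMod r)) := by
      rw [← map_pow, ← map_intCast φ]
      congr 1
      apply RingOfIntegers.ext
      have e1 : ((s ^ 2 : 𝓞 M) : M) = (s : M) ^ 2 := map_pow (algebraMap (𝓞 M) M) s 2
      have e2 : (((d : ℤ) : 𝓞 M) : M) = (d : M) := map_intCast (algebraMap (𝓞 M) M) d
      rw [e1, e2, hd]
    have h5 : ((d : ℤ) : ZMod r) ≠ 0 := by
      intro h
      rw [ZMod.intCast_zmod_eq_zero_iff_dvd] at h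
      exact hrN ((Int.natCast_dvd.mp h).trans (dvd_mul_left _ _))
    have h6 : ((d : ℤ) : AlgebraicClosure (ZMod r)) ≠ 0 := by
      intro h
      apply h5
      apply (algebraMap (ZMod r) (AlgebraicClosure (ZMod r))).injective
      rw [map_intCast, map_zero]
      exact h
    have h7 : φ s ≠ 0 := by
      intro h
      rw [h] at h4
      exact h6 (by rw [← h4]; simp)
    obtain ⟨k, hk⟩ := hodd
    have h8 : ((d : ℤ) : AlgebraicClosure (ZMod r)) ^ (r / 2) = 1 := by
      rw [← h4, ← pow_mul]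
      have : 2 * (r / 2) = r - 1 := by omega
      rw [this]
      apply mul_left_cancel₀ h7
      rw [← pow_succ', mul_one]
      have : r - 1 + 1 = r := by omega
      rw [this, h3]
    have h9 : ((d : ℤ) : ZMod r) ^ (r / 2) = 1 := by
      apply (algebraMap (ZMod r) (AlgebraicClosure (ZMod r))).injective
      rw [map_pow, map_intCast, map_one]
      exact h8
    have h10 : jacobiSym d r = 1 := by
      rw [← jacobiSym.legendreSym.to_jacobiSym]
      have h11 := legendreSym.eq_pow r d
      rw [h9] at h11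
      have h12 : ((d : ℤ) : ZMod r) ≠ 0 := h5
      rcases legendreSym.eq_one_or_neg_one r h12 with h | h
      · exact h
      · exfalso
        rw [h] at h11
        push_cast at h11
        have h13 : (2 : ZMod r) = 0 := by linear_combination -h11
        have h14 : ((2 : ℕ) : ZMod r) = 0 := by exact_mod_cast h13
        rw [ZMod.natCast_eq_zero_iff] at h14
        have := Nat.le_of_dvd two_pos h14
        have := hr.two_le
        omega
    unfold kz
    rw [if_pos ⟨k, hk⟩, h10]
    simp

end Pool.Agent.V7H55.ZC
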