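import Pool.Agent.V7H55.ZC.KWF
import Pool.Agent.V7H55.ZC.Kro

/-! From the absolute Galois group to finite extensions. -/

set_option autoImplicit false

namespace Pool.Agent.V7H55.ZC

open NumberField Pool.Agent.W569.FM Pool.Agent.W134.FM Pool.Agent.TH831.OT
  Pool.Agent.V7H55.GG Pool.Agent.V7H55.LT Pool.Agent.W401.Cheb IntermediateField

theorem exists_restr {F M : Type} [Field F] [Field M] [Algebra F M] [Normal F M] :
    ∃ (ι : M →ₐ[F] AlgebraicClosure F) (ρ : GF F →* Gal(M/F)), Function.Surjective ρ ∧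
      ∀ (g : GF F) (x : M), ι (ρ g x) = g (ι x) := by
  have : Algebra.IsAlgebraic F M := inferInstance
  let ι : M →ₐ[F] AlgebraicClosure F := IsAlgClosed.lift
  let : Algebra M (AlgebraicClosure F) := ι.toRingHom.toAlgebra
  have : IsScalarTower F M (AlgebraicClosure F) :=
    IsScalarTower.of_algebraMap_eq fun x => (ι.commutes x).symm
  refine ⟨ι, AlgEquiv.restrictNormalHom M, AlgEquiv.restrictNormalHom_surjective _, fun g x => ?_⟩
  exact AlgEquiv.restrictNormal_commutes g M x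

theorem adjoin_gen_top {F E : Type} [Field F] [Field E] [Algebra F E] (α : E) :
    F⟮AdjoinSimple.gen F α⟯ = ⊤ := by
  rw [eq_top_iff]
  intro x _
  have h1 : ((F⟮AdjoinSimple.gen F α⟯).map (F⟮α⟯).val) = F⟮α⟯ := by
    rw [IntermediateField.adjoin_map, Set.image_singleton]
    rfl
  have h2 : (x : E) ∈ (F⟮AdjoinSimple.gen F α⟯).map (F⟮α⟯).val := by
    rw [h1]; exact x.2
  obtain ⟨y, hy, hyx⟩ := h2
  have h3 : y = x := Subtype.ext hyx
  rw [← h3]
  exact hy

/-- the field generated by `u` -/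
theorem exists_field {M : Type} [Field M] [NumberField M] [IsGalois ℚ M] {m : ℕ}
    (hm : Module.finrank ℚ M = m) (u : 𝓞 M) {U : ℝ} (hU : ∀ w : InfinitePlace M, w (u : M) ≤ U)
    (hU1 : 1 ≤ U) : ∃ (E : Type) (_ : Field E) (_ : NumberField E) (τ : E →ₐ[ℚ] M) (e : E),
      τ e = u ∧ Fintype.card (E →ₐ[ℚ] M) = Module.finrank ℚ E ∧
      ((discr E).natAbs : ℝ) ≤ (2 * U) ^ (m * (m - 1)) := by
  refine ⟨ℚ⟮(u : M)⟯, inferInstance, inferInstance, (ℚ⟮(u : M)⟯).val,
    AdjoinSimple.gen ℚ (u : M), rfl, ?_, ?_⟩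
  · refine AlgHom.card_of_splits ℚ _ M fun x => ?_
    have h1 : minpoly ℚ x = minpoly ℚ (x : M) :=
      (minpoly.algebraMap_eq (algebraMap ℚ⟮(u : M)⟯ M).injective x).symm
    rw [h1]
    exact Normal.splits inferInstance _
  · have hint : IsIntegral ℤ (AdjoinSimple.gen ℚ (u : M)) := by
      have h1 : IsIntegral ℤ (algebraMap ℚ⟮(u : M)⟯ M (AdjoinSimple.gen ℚ (u : M))) := by
        rw [AdjoinSimple.algebraMap_gen]
        exact u.isIntegral_coe
      exact (isIntegral_algebraMap_iff (algebraMap ℚ⟮(u : M)⟯ M).injective).mp h1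
    let v : 𝓞 ℚ⟮(u : M)⟯ := ⟨AdjoinSimple.gen ℚ (u : M), hint⟩
    have hv : (v : ℚ⟮(u : M)⟯) = AdjoinSimple.gen ℚ (u : M) := rfl
    have htop : ℚ⟮(v : ℚ⟮(u : M)⟯)⟯ = ⊤ := by
      rw [hv]
      convert adjoin_gen_top (F := ℚ) (u : M) <;> exact Subsingleton.elim _ _
    have hvU : ∀ w : InfinitePlace ℚ⟮(u : M)⟯, w (v : ℚ⟮(u : M)⟯) ≤ U := by
      intro w
      obtain ⟨w', rfl⟩ := InfinitePlace.comap_surjective (K := M) w
      rw [InfinitePlace.comap_apply, hv, AdjoinSimple.algebraMap_gen]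
      exact hU w'
    have h1 := Pool.Agent.V7H55.LT.disc_bound_ideal rfl v htop ⊤ top_ne_bot 1 one_pos
      Submodule.mem_top Submodule.mem_top hvU
    rw [Ideal.absNorm_top, Nat.cast_one, one_pow, one_pow, one_mul, one_pow, one_mul] at h1
    rw [abs_discr_eq] at h1
    refine h1.trans (pow_le_pow_right₀ (by linarith) ?_)
    have h2 : Module.finrank ℚ ℚ⟮(u : M)⟯ ≤ m := by
      rw [← hm]
      exact LinearMap.finrank_le_finrank_of_injective (f := (ℚ⟮(u : M)⟯).val.toLinearMap)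
        (ℚ⟮(u : M)⟯).val.injective
    exact Nat.mul_le_mul h2 (by omega)

/-- a homomorphism from the group of units to `ℤ / p` as a character -/
noncomputable def toChar {p : ℕ} [Fact p.Prime] {N : ℕ} (Φ : (ZMod N)ˣ →* Multiplicative (ZMod p)) :
    DirichletCharacter ℂ N :=
  MulChar.ofUnitHom (((ZMod.stdAddChar (N := p)).toMonoidHom.toHomUnits).comp Φ)

theorem toChar_eq_one {p : ℕ} [Fact p.Prime] {N : ℕ}
    (Φ : (ZMod N)ˣ →* Multiplicative (ZMod p)) (a : (ZMod N)ˣ) :
    toChar Φ (a : ZMod N) = 1 ↔ Φ a = 1 := by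
  unfold toChar
  rw [MulChar.ofUnitHom_coe]
  change ZMod.stdAddChar (N := p) (Multiplicative.toAdd (Φ a)) = 1 ↔ _
  constructor
  · intro h
    have h1 : ZMod.stdAddChar (N := p) (Multiplicative.toAdd (Φ a)) =
        ZMod.stdAddChar (N := p) 0 := by rw [h, AddChar.map_zero_eq_one]
    exact ZMod.injective_stdAddChar h1
  · intro h
    rw [h, toAdd_one, AddChar.map_zero_eq_one]

/-- **The character of a subgroup of odd prime index.** -/
theorem odd_char {M : Type} [Field M] [NumberField M] [IsGalois ℚ M] {m : ℕ}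
    (hm : Module.finrank ℚ M = m) {p : ℕ} [hpF : Fact p.Prime] (hp2 : p ≠ 2)
    (F0 : Gal(M/ℚ) →* Multiplicative (ZMod p)) (hne : F0.ker ≠ ⊤) (u : 𝓞 M)
    (hu : ∀ ν : Gal(M/ℚ), ν (u : M) = u ↔ ν ∈ F0.ker) {U : ℝ}
    (hU : ∀ w : InfinitePlace M, w (u : M) ≤ U) (hU1 : 1 ≤ U) :
    ∃ (N : ℕ) (χ : DirichletCharacter ℂ N), 0 < N ∧
      (N : ℝ) ≤ (p : ℝ) ^ 2 * (2 * U) ^ (m * (m - 1)) ∧ χ ≠ 1 ∧ Detects F0.ker N χ := by
  classical
  obtain ⟨ι, ρ, hρ, hιρ⟩ := exists_restr (F := ℚ) (M := M)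
  obtain ⟨E, _, _, τ, e, hτe, hX, hdisc⟩ := exists_field hm u hU hU1
  set DE := (discr E).natAbs with hDE
  have hDE0 : DE ≠ 0 := Int.natAbs_ne_zero.mpr (discr_ne_zero E)
  set S : Finset ℕ := DE.primeFactors.erase p with hS
  have hSm : ∀ l ∈ S, l.Prime ∧ l ≠ p := fun l hl =>
    ⟨Nat.prime_of_mem_primeFactors (Finset.mem_of_mem_erase hl), Finset.ne_of_mem_erase hl⟩
  -- the ring homomorphism
  let j : 𝓞 M →+* OO ℚ := RingOfIntegers.mapRingHom (ι : M →+* AlgebraicClosure ℚ)
  have hj : ∀ (g : GF ℚ) (x : 𝓞 M), j (ρ g • x) = g • j x := by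
    intro g x
    apply RingOfIntegers.ext
    exact hιρ g (x : M)
  let F : GF ℚ →* Multiplicative (ZMod p) := F0.comp ρ
  have hFo : IsOpen (F.ker : Set (GF ℚ)) := by
    refine Subgroup.isOpen_mono (H₁ := MulAction.stabilizer (GF ℚ) (ι (u : M))) ?_
      (isOpen_stab _)
    intro g hg
    rw [MulAction.mem_stabilizer_iff] at hg
    have h1 : ι (ρ g (u : M)) = ι (u : M) := by rw [hιρ]; exact hg
    have h2 : ρ g (u : M) = u := ι.injective h1
    exact (hu _).mp h2
  have hFur : ∀ g ∈ UrSet p S, F g = 1 := by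
    rintro g ⟨P, hP, hSP, hpP, hg⟩
    let : Field (OO ℚ ⧸ P) := Ideal.Quotient.field P
    obtain ⟨r, hr⟩ := CharP.exists (OO ℚ ⧸ P)
    have hr0 : ((r : ℕ) : OO ℚ) ∈ P := by
      rw [← Ideal.Quotient.eq_zero_iff_mem, map_natCast, CharP.cast_eq_zero]
    have hrne : r ≠ 0 := by
      rintro rfl
      have hP0 : P ≠ ⊥ := by
        rintro rfl
        obtain ⟨P', hP', h2, -⟩ := (Pool.Agent.W571.FM.main 2 Nat.prime_two).1
        have h3 := hP.eq_of_le hP'.ne_top bot_le
        rw [← h3, Ideal.mem_bot] at h2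
        exact two_ne_zero (by exact_mod_cast h2 : (2 : OO ℚ) = 0)
      obtain ⟨x, hx, hx0⟩ := Submodule.exists_mem_ne_zero_of_ne_bot hP0
      obtain ⟨q, hq, hq0, hqx⟩ : ∃ q : ℤ, (q : OO ℚ) ∈ P ∧ q ≠ 0 ∧ True := by
        have h1 : Ideal.comap (algebraMap ℤ (OO ℚ)) P ≠ ⊥ :=
          Ideal.IsIntegral.comap_ne_bot _ hP0
        obtain ⟨q, hq, hq0⟩ := Submodule.exists_mem_ne_zero_of_ne_bot h1
        rw [Ideal.mem_comap] at hq
        exact ⟨q, by simpa using hq, hq0, trivial⟩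
      have h2 : ((q : ℤ) : OO ℚ ⧸ P) = 0 := by
        rw [← map_intCast (Ideal.Quotient.mk P), Ideal.Quotient.eq_zero_iff_mem]
        exact hq
      rw [CharP.intCast_eq_zero_iff (OO ℚ ⧸ P) 0] at h2
      rw [Nat.cast_zero, zero_dvd_iff] at h2
      exact hq0 h2
    have hrp : r.Prime := (CharP.char_is_prime_or_zero (OO ℚ ⧸ P) r).resolve_right hrne
    have hrD : ¬ r ∣ (discr E).natAbs := by
      intro h
      by_cases hrp' : r = p
      · rw [hrp'] at hr0
        exact hpP hr0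
      · refine hSP r (Finset.mem_erase.mpr ⟨hrp', ?_⟩) hr0
        exact Nat.mem_primeFactors.mpr ⟨hrp, h, hDE0⟩
    let φ : 𝓞 M →+* OO ℚ ⧸ P := (Ideal.Quotient.mk P).comp j
    have h1 : res φ (mv (ρ g) τ) = res φ τ := by
      ext x
      rw [res_mv, res_apply]
      change Ideal.Quotient.mk P (j (ρ g • _)) = Ideal.Quotient.mk P (j _)
      rw [hj, Ideal.Quotient.eq]
      exact hg _
    have h2 := res_injective hX φ hrD h1
    have h3 : ρ g (u : M) = u := by
      rw [← hτe, ← mv_apply, h2]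
    exact (hu _).mp h3
  -- the characters at the primes of `S`
  have hchar : ∀ l : ℕ, ∃ χ : (ZMod l)ˣ →* Multiplicative (ZMod p), l ∈ S → p ∣ l - 1 →
      ∃ x, χ x ≠ 1 := by
    intro l
    by_cases hl : l ∈ S ∧ p ∣ l - 1
    · obtain ⟨π, -, hπ⟩ := exists_quot hpF.out (hSm l hl.1).1 hl.2
      exact ⟨π, fun _ _ => hπ⟩
    · exact ⟨1, fun h1 h2 => absurd ⟨h1, h2⟩ hl⟩
  choose χl hχl using hchar
  obtain ⟨c, v, hcv⟩ := kw_frob hp2 S hSm χl hχl F hFo hFur
  -- the modulus
  set N : ℕ := p ^ 2 * ∏ l ∈ S, l with hN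
  have hprod0 : 0 < ∏ l ∈ S, l := Finset.prod_pos fun l hl => (hSm l hl).1.pos
  have hN0 : 0 < N := Nat.mul_pos (pow_pos hpF.out.pos 2) hprod0
  have hNe : NeZero N := ⟨hN0.ne'⟩
  have hdp : p ^ 2 ∣ N := dvd_mul_right _ _
  have hdl : ∀ l ∈ S, l ∣ N := fun l hl => (Finset.dvd_prod_of_mem _ hl).mul_left _
  let Φ : (ZMod N)ˣ →* Multiplicative (ZMod p) :=
    { toFun := fun a => Multiplicative.ofAdd
        (Multiplicative.toAdd (theta p (ZMod.unitsMap hdp a)) * c +
        ∑ l ∈ S.filter (fun l => p ∣ l - 1), (if h : l ∈ S then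
          Multiplicative.toAdd (χl l (ZMod.unitsMap (hdl l h) a)) else 0) * v l)
      map_one' := by
        rw [map_one, map_one, toAdd_one, zero_mul, zero_add]
        have : ∑ l ∈ S.filter (fun l => p ∣ l - 1), (if h : l ∈ S then
          Multiplicative.toAdd (χl l (ZMod.unitsMap (hdl l h) 1)) else 0) * v l = 0 := by
          refine Finset.sum_eq_zero fun l hl => ?_
          rw [dif_pos (Finset.mem_filter.mp hl).1, map_one, map_one, toAdd_one, zero_mul]
        rw [this, ofAdd_zero]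
      map_mul' := fun a b => by
        rw [← ofAdd_add]
        congr 1
        rw [map_mul, map_mul, toAdd_mul]
        have : ∑ l ∈ S.filter (fun l => p ∣ l - 1), (if h : l ∈ S then
          Multiplicative.toAdd (χl l (ZMod.unitsMap (hdl l h) (a * b))) else 0) * v l =
          ∑ l ∈ S.filter (fun l => p ∣ l - 1), (if h : l ∈ S then
          Multiplicative.toAdd (χl l (ZMod.unitsMap (hdl l h) a)) else 0) * v l +
          ∑ l ∈ S.filter (fun l => p ∣ l - 1), (if h : l ∈ S then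
          Multiplicative.toAdd (χl l (ZMod.unitsMap (hdl l h) b)) else 0) * v l := by
          rw [← Finset.sum_add_distrib]
          refine Finset.sum_congr rfl fun l hl => ?_
          have hlS := (Finset.mem_filter.mp hl).1
          rw [dif_pos hlS, dif_pos hlS, dif_pos hlS, map_mul, map_mul, toAdd_mul, add_mul]
        rw [this]
        ring }
  -- the values
  have hval : ∀ r : ℕ, r.Prime → ¬ r ∣ N → ∃ _ : Fact r.Prime,
      ∃ (φ : 𝓞 M →+* AlgebraicClosure (ZMod r)) (σ : Gal(M/ℚ)), HasFrob r φ σ ∧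
      (toChar Φ (r : ZMod N) = 1 ↔ σ ∈ F0.ker) := by
    intro r hr hrN
    have hrF : Fact r.Prime := ⟨hr⟩
    have hrp : r ≠ p := by
      rintro rfl
      exact hrN ((dvd_pow_self r two_ne_zero).trans hdp)
    have hrS : r ∉ S := fun h => hrN (hdl r h)
    have hintg : Algebra.IsIntegral ℤ (OO ℚ) := inferInstance
    obtain ⟨ψ, -⟩ := W54.ChTor.exists_ext (A := ℤ) (B := OO ℚ) (RingHom.injective_int _) r
      (Int.castRingHom (ZMod r))
    have hrP : ((r : ℕ) : OO ℚ) ∈ RingHom.ker ψ := by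
      rw [RingHom.mem_ker, map_natCast, CharP.cast_eq_zero]
    have hPp : (RingHom.ker ψ).IsPrime := RingHom.ker_isPrime _
    have hPm : (RingHom.ker ψ).IsMaximal := by
      have h1 : (Ideal.comap (algebraMap ℤ (OO ℚ)) (RingHom.ker ψ)).IsMaximal := by
        have h2 : (Ideal.comap (algebraMap ℤ (OO ℚ)) (RingHom.ker ψ)).IsPrime :=
          Ideal.comap_isPrime _ _
        refine h2.isMaximal ?_
        intro h3
        have h4 : ((r : ℕ) : ℤ) ∈ Ideal.comap (algebraMap ℤ (OO ℚ)) (RingHom.ker ψ) := by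
          rw [Ideal.mem_comap, map_natCast]
          exact hrP
        rw [h3, Ideal.mem_bot] at h4
        exact hr.ne_zero (by exact_mod_cast h4)
      exact Ideal.isMaximal_of_isIntegral_of_isMaximal_comap _ h1
    obtain ⟨σ, hσ⟩ := Pool.Agent.W924.UF.frobp r hr _ hPm hrP
    refine ⟨hrF, ψ.comp j, ρ σ, ?_, ?_⟩
    · intro x
      rw [RingHom.comp_apply, hj, RingHom.comp_apply]
      have h1 := hσ (j x)
      rw [RingHom.mem_ker, map_sub, map_pow, sub_eq_zero] at h1
      exact h1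
    · have hcop : r.Coprime N := (Nat.Prime.coprime_iff_not_dvd hr).mpr hrN
      set a : (ZMod N)ˣ := ZMod.unitOfCoprime r hcop with ha
      have haval : (a : ZMod N) = (r : ZMod N) := ZMod.coe_unitOfCoprime r hcop
      rw [← haval, toChar_eq_one]
      have hmapval : ∀ {n : ℕ} (h : n ∣ N), ((ZMod.unitsMap h a : (ZMod n)ˣ) : ZMod n) =
          (r : ZMod n) := by
        intro n h
        change ZMod.castHom h (ZMod n) (a : ZMod N) = _
        rw [haval, map_natCast]
      have h1 := hcv r hr hrp hrS _ hPm hrP σ hσ (ZMod.unitsMap hdp a) (hmapval hdp)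
        (fun l => if h : l ∈ S then ZMod.unitsMap (hdl l h) a else 1) (fun l hl => by
          rw [dif_pos hl]; exact hmapval _)
      have h2 : Multiplicative.toAdd (Φ a) = Multiplicative.toAdd (F σ) := by
        rw [h1]
        change Multiplicative.toAdd (theta p (ZMod.unitsMap hdp a)) * c +
          ∑ l ∈ S.filter (fun l => p ∣ l - 1), (if h : l ∈ S then
          Multiplicative.toAdd (χl l (ZMod.unitsMap (hdl l h) a)) else 0) * v l = _
        congr 1
        refine Finset.sum_congr rfl fun l hl => ?_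
        have hlS := (Finset.mem_filter.mp hl).1
        rw [dif_pos hlS, dif_pos hlS]
      have h3 : Φ a = F σ := Multiplicative.toAdd.injective h2
      rw [h3]
      rfl
  refine ⟨N, toChar Φ, hN0, ?_, ?_, ?_⟩
  · have h1 : ∏ l ∈ S, l ≤ DE := by
      refine Nat.le_of_dvd (Nat.pos_of_ne_zero hDE0) ?_
      refine (Finset.prod_dvd_prod_of_subset _ _ _ (Finset.erase_subset _ _)).trans ?_
      exact Nat.prod_primeFactors_dvd DE
    rw [hN]
    push_cast
    have h2 : ((∏ l ∈ S, l : ℕ) : ℝ) ≤ (2 * U) ^ (m * (m - 1)) := by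
      refine le_trans ?_ hdisc
      exact_mod_cast h1
    push_cast at h2
    exact mul_le_mul_of_nonneg_left h2 (by positivity)
  · -- not principal
    intro h1
    obtain ⟨g, hg⟩ : ∃ g, g ∉ F0.ker := by
      by_contra hcon
      push Not at hcon
      exact hne ((Subgroup.eq_top_iff' _).mpr hcon)
    obtain ⟨c0, hc0, hcount⟩ := good_count M g
    have hX : ∃ r : ℕ, N < r ∧ r.Prime ∧ GoodP M g r := by
      by_contra hcon
      push Not at hcon
      have hbd : ∀ X : ℕ, (((Finset.range (X + 1)).filter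
          fun p => p.Prime ∧ GoodP M g p).card : ℝ) ≤ N + 1 := by
        intro X
        have h2 : ((Finset.range (X + 1)).filter fun p => p.Prime ∧ GoodP M g p).card ≤
            (Finset.range (N + 1)).card := by
          refine Finset.card_le_card fun r hr => ?_
          obtain ⟨-, h3, h4⟩ := Finset.mem_filter.mp hr
          rw [Finset.mem_range]
          by_contra h5
          exact hcon r (by omega) h3 h4
        rw [Finset.card_range] at h2
        exact_mod_cast h2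
      have h3 : Filter.Tendsto (fun X : ℕ => c0 * (Nat.primeCounting X : ℝ)) Filter.atTop
          Filter.atTop := by
        refine Filter.Tendsto.const_mul_atTop hc0 ?_
        exact tendsto_natCast_atTop_atTop.comp Nat.tendsto_primeCounting
      obtain ⟨X, hX1, hX2⟩ := ((h3.eventually_gt_atTop ((N : ℝ) + 1)).and hcount).exists
      have := hbd X
      linarith
    obtain ⟨r, hrN, hr, hrF, htor, φ, hφ⟩ := hX
    have hrdvd : ¬ r ∣ N := fun h => by
      have := Nat.le_of_dvd hN0 h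
      omega
    obtain ⟨_, φ', σ', hσ', hiff⟩ := hval r hr hrdvd
    have h4 : σ' ∈ F0.ker := by
      rw [← hiff, h1]
      refine MulChar.one_apply ?_
      rw [ZMod.isUnit_iff_coprime]
      exact (Nat.Prime.coprime_iff_not_dvd hr).mpr hrdvd
    obtain ⟨ρ', hρ', -⟩ := htor.2.1 φ φ'
    have h5 : φ' = tw φ ρ' := RingHom.ext hρ'
    rw [h5] at hσ'
    have h6 := (hasFrob_tw htor hφ ρ' σ').mp hσ'
    apply hg
    rw [h6] at h4
    have h7 : F0 (ρ'⁻¹ * g * ρ') = 1 := h4
    rw [map_mul, map_mul, map_inv, mul_comm, mul_inv_cancel_left] at h7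
    exact h7
  · intro r hr hrN
    obtain ⟨hrF, φ, σ, hσ, hiff⟩ := hval r hr hrN
    exact ⟨hrF, φ, σ, hσ, fun h1 h2 => h1 (hiff.mpr h2)⟩

end Pool.Agent.V7H55.ZC
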