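import Pool.Agent.V7H55.ZC.Lv

/-! The inequality for sets of usable primes. -/

set_option autoImplicit false

namespace Pool.Agent.V7H55.ZC

open NumberField Finset IntermediateField Pool.Agent.V7H55.GG Pool.Agent.V7H55.LT
  Pool.Agent.W401.Cheb
open scoped Classical nonZeroDivisors

section
variable (L : Type) {M : Type} [Field L] [NumberField L] [Field M] [NumberField M]

/-- the orbit of `τ` under `σ` is not invariant under `R` -/
def Moves (R : Subgroup Gal(M/ℚ)) (σ : Gal(M/ℚ)) (τ : L →ₐ[ℚ] M) : Prop :=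
  ∃ ν ∈ R, ∀ k : ℕ, mv ν τ ≠ mv (σ ^ k) τ

/-- the prime `p` is usable -/
def Usable (R : Subgroup Gal(M/ℚ)) (p : ℕ) : Prop :=
  ∃ _ : Fact p.Prime, ∃ (φ : 𝓞 M →+* AlgebraicClosure (ZMod p)) (σ : Gal(M/ℚ)),
    HasFrob p φ σ ∧ ∃ τ : L →ₐ[ℚ] M, Moves L R σ τ

variable {L}

/-- the prime ideal of a usable prime -/
theorem exists_prime3 (hX : Fintype.card (L →ₐ[ℚ] M) = Module.finrank ℚ L)
    {R : Subgroup Gal(M/ℚ)} {p : ℕ} (hp : Usable L R p) (hpL : ¬ p ∣ (discr L).natAbs) :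
    ∃ P J : (Ideal (𝓞 L))⁰, (P : Ideal (𝓞 L)) * (J : Ideal (𝓞 L)) =
      Ideal.span {((p : ℕ) : 𝓞 L)} ∧ ∀ (z : 𝓞 L) (I : Ideal (𝓞 L)) (l : ℕ), 1 ≤ l →
      Nat.Coprime (Ideal.absNorm I) p → Ideal.span {z} = (P : Ideal (𝓞 L)) ^ l * I →
      ∃ ν ∈ R, ∃ τ : L →ₐ[ℚ] M, ν (τ (z : L)) ≠ τ (z : L) := by
  obtain ⟨hpF, φ, σ, hσ, τ, ν, hν, hτ⟩ := hp
  have hp : p.Prime := hpF.out
  have hP0 : RingHom.ker (res φ τ) ≠ ⊥ := ker_ne_bot hp φ τ
  have hdvd : RingHom.ker (res φ τ) ∣ Ideal.span {((p : ℕ) : 𝓞 L)} := by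
    rw [Ideal.dvd_iff_le, Ideal.span_le, Set.singleton_subset_iff]
    exact mem_ker_p φ τ
  obtain ⟨J, hJ⟩ := hdvd
  have hJ0 : J ≠ ⊥ := by
    rintro rfl
    rw [Ideal.mul_bot, Ideal.span_singleton_eq_bot] at hJ
    exact hp.ne_zero (by exact_mod_cast hJ)
  refine ⟨⟨RingHom.ker (res φ τ), mem_nonZeroDivisors_of_ne_zero hP0⟩,
    ⟨J, mem_nonZeroDivisors_of_ne_zero hJ0⟩, hJ.symm, ?_⟩
  intro z I l hl hI hz
  refine ⟨ν, hν, τ, fun h => ?_⟩
  obtain ⟨k, hk'⟩ := key_lemma hX hpL φ σ hσ τ (mv ν τ) z I hl hI hz h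
  exact hτ k hk'

end

/-- the inequality for sets of usable primes -/
theorem pack_usable (n : ℕ) (hn2 : 2 ≤ n) (δ : ℝ) (hδ : 0 < δ) :
    ∃ C : ℝ, 0 < C ∧ ∀ l : ℕ, 1 ≤ l →
    ∀ (L M : Type) [Field L] [NumberField L] [Field M] [NumberField M] [IsNormalClosure ℚ L M]
    (R : Subgroup Gal(M/ℚ)) (S : Finset ℕ) (X : ℕ), Module.finrank ℚ L = n →
    (∀ p ∈ S, Usable L R p ∧ ¬ p ∣ (discr L).natAbs) →
    (∀ p ∈ S, p ≤ X) →
    (∀ θ : 𝓞 M, (∀ w : InfinitePlace M, w (θ : M) ≤ 150 ^ l * (X : ℝ) ^ l) → R ≤ fixN θ) →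
    (Nat.card {c : ClassGroup (𝓞 L) // c ^ l = 1} : ℝ) * (S.card : ℝ) ≤
      C * ((discr L).natAbs : ℝ) ^ (1 / 2 + δ) := by
  obtain ⟨C, hC0, hC⟩ := Pool.Agent.Y159.PT.W_bound n hn2 δ hδ
  refine ⟨C, hC0, ?_⟩
  intro l hl L M _ _ _ _ hM R S X hn hS hSX hR
  have hgal : IsGalois ℚ M := isGalois_nc L M
  have hXc : Fintype.card (L →ₐ[ℚ] M) = Module.finrank ℚ L := card_hom L M
  obtain ⟨N, hXN, hW⟩ := hC L hn
  refine le_trans ?_ hW
  have hex : ∀ p : {p // p ∈ S}, ∃ P J : (Ideal (𝓞 L))⁰, (P : Ideal (𝓞 L)) * (J : Ideal (𝓞 L)) =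
      Ideal.span {((p.1 : ℕ) : 𝓞 L)} ∧ ∀ (z : 𝓞 L) (I : Ideal (𝓞 L)) (l : ℕ), 1 ≤ l →
      Nat.Coprime (Ideal.absNorm I) p.1 → Ideal.span {z} = (P : Ideal (𝓞 L)) ^ l * I →
      ∃ ν ∈ R, ∃ τ : L →ₐ[ℚ] M, ν (τ (z : L)) ≠ τ (z : L) := fun p =>
    exists_prime3 hXc (hS p.1 p.2).1 (hS p.1 p.2).2
  choose P J hPJ hgen using hex
  have hprime : ∀ p ∈ S, p.Prime := fun p hp => by
    obtain ⟨⟨hpF, -⟩, -⟩ := hS p hp
    exact hpF.out
  have key := ev_norm hn hl N hXN {p // p ∈ S} (fun p => p.1) P J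
    (fun p => ⟨(hprime p.1 p.2).pos, hPJ p⟩)
    (fun p q => Ideal.absNorm (P q : Ideal (𝓞 L)) ≤ Ideal.absNorm (P p : Ideal (𝓞 L)))
    (fun p q => le_total _ _) (by
      intro p q hne hle z hz0 hz hw
      have hpp := hprime p.1 p.2
      have hqp := hprime q.1 q.2
      have hX1 : 1 ≤ X := hpp.one_lt.le.trans (hSX p.1 p.2)
      -- the norm
      have hnorm : Ideal.absNorm (P p : Ideal (𝓞 L)) * Ideal.absNorm (J p : Ideal (𝓞 L)) =
          p.1 ^ n := by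
        rw [← map_mul, hPJ, Ideal.absNorm_span_natCast, RingOfIntegers.rank, hn]
      have hle2 : Ideal.absNorm (P q : Ideal (𝓞 L)) * Ideal.absNorm (J p : Ideal (𝓞 L)) ≤
          X ^ n := by
        calc Ideal.absNorm (P q : Ideal (𝓞 L)) * Ideal.absNorm (J p : Ideal (𝓞 L))
            ≤ Ideal.absNorm (P p : Ideal (𝓞 L)) * Ideal.absNorm (J p : Ideal (𝓞 L)) :=
              Nat.mul_le_mul_right _ hle
          _ = p.1 ^ n := hnorm
          _ ≤ X ^ n := Nat.pow_le_pow_left (hSX p.1 p.2) n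
      have hB : ∀ w : InfinitePlace L, w (z : L) ≤ 150 ^ l * (X : ℝ) ^ l := by
        intro w
        have h1 := hw w
        have h2 : (((Ideal.absNorm (P q : Ideal (𝓞 L)) * Ideal.absNorm (J p : Ideal (𝓞 L))) ^ l :
            ℕ) : ℝ) ≤ ((X : ℝ) ^ l) ^ n := by
          calc (((Ideal.absNorm (P q : Ideal (𝓞 L)) * Ideal.absNorm (J p : Ideal (𝓞 L))) ^ l :
              ℕ) : ℝ) ≤ (((X ^ n) ^ l : ℕ) : ℝ) := by
                exact_mod_cast Nat.pow_le_pow_left hle2 l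
            _ = ((X : ℝ) ^ l) ^ n := by
                push_cast
                rw [← pow_mul, ← pow_mul, mul_comm]
        have h3 : w (z : L) ^ n ≤ (150 ^ l * (X : ℝ) ^ l) ^ n := by
          rw [mul_pow]
          exact h1.trans (by gcongr)
        exact le_of_pow_le_pow_left₀ (by omega) (by positivity) h3
      -- coprimality
      have hcop : Nat.Coprime (Ideal.absNorm ((J p : Ideal (𝓞 L)) ^ l)) q.1 := by
        rw [map_pow]
        refine Nat.Coprime.pow_left _ ?_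
        have h1 : Ideal.absNorm (J p : Ideal (𝓞 L)) ∣ p.1 ^ n := Dvd.intro_left _ hnorm
        refine Nat.Coprime.coprime_dvd_left h1 (Nat.Coprime.pow_left _ ?_)
        exact (Nat.coprime_primes hpp hqp).mpr (fun h => hne (Subtype.ext h))
      obtain ⟨ν, hν, τ, hτ⟩ := hgen q z ((J p : Ideal (𝓞 L)) ^ l) l hl hcop hz
      apply hτ
      have h1 := hR (RingOfIntegers.mapRingHom (τ : L →+* M) z) (by
        intro w
        rw [RingOfIntegers.mapRingHom_apply]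
        have h2 := hB (w.comap (τ : L →+* M))
        rw [InfinitePlace.comap_apply] at h2
        exact h2)
      have h3 := mem_fixN.mp (h1 hν) 1
      rw [RingOfIntegers.mapRingHom_apply] at h3
      exact h3)
  rw [Fintype.card_coe] at key
  rw [mul_comm]
  exact key

end Pool.Agent.V7H55.ZC
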