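import Pool.Agent.V7H55.ZC.Sieve2

/-! Many small primes with `χ(p) ≠ 1`: conclusion. -/

set_option autoImplicit false

namespace Pool.Agent.V7H55.ZC

open Finset Pool.Agent.Helper112.LP Pool.Agent.TH423.SH
open scoped Classical

/-- the sieve, for characters whose modulus is a multiple of `W` -/
theorem many_primes_aux : ∃ (A1 J1 z0 : ℕ), 2 ≤ z0 ∧ ∀ (N : ℕ) (χ : DirichletCharacter ℂ N),
    0 < N → χ ≠ 1 → Wz z0 ∣ N → ∀ J ≥ J1, ∀ x : ℕ, N * (2 ^ 2 ^ J) ^ A1 ≤ x →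
      2 ^ 2 ^ (J - 1) ≤ 4 * (Vb χ (2 ^ 2 ^ J) x).card := by
  obtain ⟨C, hC1, hC⟩ := fLemC
  obtain ⟨K, hK0, hK⟩ := prod_lower
  set b : ℕ := 2 * C + 3 with hb
  set z0 : ℕ := 2 * C with hz0
  set W : ℕ := Wz z0 with hW
  have hW0 : 0 < W := Wz_pos z0
  have hW1 : 1 < W := by
    have h2 : 2 ∣ W := dvd_Wz Nat.prime_two (by omega)
    exact (by norm_num : 1 < 2).trans_le (Nat.le_of_dvd hW0 h2)
  have hWr : (0 : ℝ) < W := by exact_mod_cast hW0
  -- the size of J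
  have hlog2 : 0 < Real.log 2 := Real.log_pos (by norm_num)
  have hWlog : 0 ≤ Real.log W := Real.log_nonneg (by exact_mod_cast hW0)
  obtain ⟨J1, hJ1⟩ := lin_lt_exp ((K + Real.log W + 2) / Real.log 2 + 30)
  refine ⟨C * b + 1, J1 + z0 + 1, z0, by omega, ?_⟩
  intro N χ hN hχ hWN J hJ x hx
  have hNr : (0 : ℝ) < N := by exact_mod_cast hN
  set z : ℕ := 2 ^ 2 ^ J with hz
  have hz1 : 1 ≤ z := Nat.one_le_two_pow
  have hzr : (0 : ℝ) < z := by exact_mod_cast hz1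
  have hWle : (W : ℝ) ≤ N := by exact_mod_cast Nat.le_of_dvd hN hWN
  have hN1r : (1 : ℝ) ≤ N := by exact_mod_cast hN
  set P : Finset ℕ := (Finset.Icc 1 z).filter fun p => p.Prime ∧ z0 < p with hP
  have hPm : ∀ p ∈ P, p.Prime ∧ z0 < p ∧ p ≤ 2 ^ 2 ^ J := by
    intro p hp
    obtain ⟨h1, h2, h3⟩ := Finset.mem_filter.mp hp
    exact ⟨h2, h3, (Finset.mem_Icc.mp h1).2⟩
  have hg : ∀ p ∈ P, 0 ≤ 1 / (p : ℝ) ∧ 1 / (p : ℝ) ≤ ((1 : ℕ) : ℝ) / ((p : ℝ) - 1) := by
    intro p hp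
    have h2 : (2 : ℝ) ≤ p := by exact_mod_cast (hPm p hp).1.two_le
    refine ⟨by positivity, ?_⟩
    rw [Nat.cast_one]
    exact one_div_le_one_div_of_le (by linarith) (by linarith)
  have hcond1 : C * (1 + 1) ≤ b := by omega
  have hcond2 : C * (1 + 1) ≤ z0 := by omega
  have hmean : 0 ≤ mean W := (by positivity : (0 : ℝ) ≤ 1 / W).trans (mean_pos hW1)
  set A : ℝ := x * mean W with hA
  have hA0 : 0 ≤ A := by positivity
  -- the two applications of the fundamental lemma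
  have hdiv : ∀ T ⊆ P, ∀ (inst : DecidablePred fun m : ℕ => ∀ p ∈ T, p ∣ m) (w : ℕ → ℝ),
      ∑ m ∈ @Finset.filter ℕ (fun m => ∀ p ∈ T, p ∣ m) inst (range x), w m =
      ∑ m ∈ (range x).filter (fun m => ∏ p ∈ T, p ∣ m), w m := by
    intro T hT inst w
    congr 1
    ext m
    rw [Finset.mem_filter, Finset.mem_filter, hits_iff (fun p hp => (hPm p (hT hp)).1) m]
  have hprod : ∀ T : Finset ℕ, ∏ p ∈ T, (1 / (p : ℝ)) = 1 / ((∏ p ∈ T, p : ℕ) : ℝ) := by
    intro T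
    rw [Nat.cast_prod, Finset.prod_div_distrib, Finset.prod_const_one]
  have hpos : ∀ T ⊆ P, 0 < ∏ p ∈ T, p := fun T hT =>
    Finset.prod_pos fun p hp => (hPm p (hT hp)).1.pos
  have key1 := hC 1 b J z0 P (fun p => 1 / (p : ℝ)) hcond1 hcond2 hPm hg (range x) (w1 W)
    (fun p m => p ∣ m) A (fun _ => 5 * N) (fun m _ => w1_nonneg W m) hA0 (by
      intro T hT _
      rw [hdiv T hT _ _, hprod]
      refine (sum_w1 hW0 (hpos T hT) (coprime_prod fun p hp =>
        ⟨(hPm p (hT hp)).1, (hPm p (hT hp)).2.1⟩) x).trans ?_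
      linarith)
  have key2 := hC 1 b J z0 P (fun p => 1 / (p : ℝ)) hcond1 hcond2 hPm hg (range x)
    (fun m => w1 W m + (χ (m : ZMod N)).re)
    (fun p m => p ∣ m) A (fun _ => 5 * N) (by
      intro m _
      have h1 := (abs_le.mp (re_chi_le χ (m : ZMod N))).1
      by_cases hcop : m.Coprime W
      · have h6 : w1 W m = 1 := by unfold w1; rw [if_pos hcop]
        rw [h6]; linarith
      · have h6 : w1 W m = 0 := by unfold w1; rw [if_neg hcop]
        have h7 : χ (m : ZMod N) = 0 := by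
          apply χ.map_nonunit
          rw [ZMod.isUnit_iff_coprime]
          intro hc
          exact hcop (hc.coprime_dvd_right hWN)
        rw [h6, h7, Complex.zero_re, add_zero]) hA0 (by
      intro T hT _
      rw [hdiv T hT _ _, hprod, Finset.sum_add_distrib]
      have h1 := sum_w1 hW0 (hpos T hT) (coprime_prod fun p hp =>
        ⟨(hPm p (hT hp)).1, (hPm p (hT hp)).2.1⟩) x
      have h2 := sum_chi hN χ hχ (hpos T hT) x
      rw [← hA] at h1
      have h1' := abs_le.mp h1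
      have h2' := abs_le.mp h2
      rw [abs_le]
      constructor <;> linarith [h1'.1, h1'.2, h2'.1, h2'.2])
  set V : ℝ := ∏ p ∈ P, (1 - 1 / (p : ℝ)) with hV
  set E : ℝ := ((J : ℝ) + 2) * ∑ T ∈ P.powerset.filter
    (fun T : Finset ℕ => ∏ p ∈ T, p ≤ (2 ^ 2 ^ J) ^ (C * b)), (5 * (N : ℝ)) with hE
  have hEle : E ≤ ((J : ℝ) + 2) * (5 * N * (z : ℝ) ^ (C * b)) := by
    rw [hE, Finset.sum_const, nsmul_eq_mul]
    have h1 := card_small (P := P) (fun p hp => (hPm p hp).1) ((2 ^ 2 ^ J) ^ (C * b))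
    have h2 : (((P.powerset.filter
        (fun T : Finset ℕ => ∏ p ∈ T, p ≤ (2 ^ 2 ^ J) ^ (C * b))).card : ℕ) : ℝ) ≤
        (z : ℝ) ^ (C * b) := by exact_mod_cast h1
    have h3 : (0 : ℝ) ≤ (J : ℝ) + 2 := by positivity
    refine mul_le_mul_of_nonneg_left ?_ h3
    nlinarith
  have hVlow : Real.exp (-(K * (J + 1))) ≤ V := hK J P fun p hp => ⟨(hPm p hp).1, (hPm p hp).2.2⟩
  have hV0 : 0 < V := (Real.exp_pos _).trans_le hVlow
  have hup := sifted_le (N := N) (lt_of_lt_of_le hW1 (Nat.le_of_dvd hN hWN)) χ hW1 hWN hz1 P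
    (fun p hp h1 h2 => Finset.mem_filter.mpr ⟨Finset.mem_Icc.mpr ⟨hp.one_lt.le, h2⟩, hp, h1⟩) x
  set S1 := ∑ m ∈ (range x).filter (fun m => ∀ p ∈ P, ¬ p ∣ m), w1 W m with hS1
  set S2 := ∑ m ∈ (range x).filter (fun m => ∀ p ∈ P, ¬ p ∣ m),
    (w1 W m + (χ (m : ZMod N)).re) with hS2
  have hsum : ∑ m ∈ (range x).filter (fun m => ∀ p ∈ P, ¬ p ∣ m),
      (w1 W m - (χ (m : ZMod N)).re) = 2 * S1 - S2 := by
    rw [hS1, hS2, Finset.mul_sum, ← Finset.sum_sub_distrib]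
    refine Finset.sum_congr rfl fun m _ => ?_
    ring
  rw [← hW, hsum] at hup
  have key1' : |S1 - A * V| ≤ (1 / 2 : ℝ) ^ b * (A * V) + E := by
    rw [hS1]
    convert key1 using 4
    ext m
    simp only [Finset.mem_filter]
  have key2' : |S2 - A * V| ≤ (1 / 2 : ℝ) ^ b * (A * V) + E := by
    rw [hS2]
    convert key2 using 4
    ext m
    simp only [Finset.mem_filter]
  have hb3 : (1 / 2 : ℝ) ^ b ≤ 1 / 8 := by
    calc (1 / 2 : ℝ) ^ b ≤ (1 / 2) ^ 3 := pow_le_pow_of_le_one (by norm_num) (by norm_num) (by omega)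
      _ = 1 / 8 := by norm_num
  have hAV : 0 ≤ A * V := by positivity
  have hmain : A * V / 2 - 3 * E ≤ 2 * S1 - S2 := by
    have h1 := (abs_le.mp key1').1
    have h2 := (abs_le.mp key2').2
    have h3 : (1 / 2 : ℝ) ^ b * (A * V) ≤ 1 / 8 * (A * V) :=
      mul_le_mul_of_nonneg_right hb3 hAV
    linarith
  -- sizes
  have hxr : (N : ℝ) * z ^ (C * b + 1) ≤ x := by exact_mod_cast hx
  have hx0 : (0 : ℝ) < x := lt_of_lt_of_le (by positivity) hxr
  have hE2 : E ≤ 5 * ((J : ℝ) + 2) * (x / z) := by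
    refine hEle.trans ?_
    have h1 : (N : ℝ) * z ^ (C * b) ≤ x / z := by
      rw [le_div_iff₀ hzr]
      calc (N : ℝ) * z ^ (C * b) * z = N * z ^ (C * b + 1) := by ring
        _ ≤ x := hxr
    have h3 : (0 : ℝ) ≤ (J : ℝ) + 2 := by positivity
    calc ((J : ℝ) + 2) * (5 * N * (z : ℝ) ^ (C * b))
        = 5 * ((J : ℝ) + 2) * (N * (z : ℝ) ^ (C * b)) := by ring
      _ ≤ 5 * ((J : ℝ) + 2) * (x / z) := by gcongr
  have hAlow : x / W * Real.exp (-(K * (J + 1))) ≤ A * V := by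
    have h1 : (x : ℝ) / W ≤ A := by
      rw [hA, div_eq_mul_one_div]
      exact mul_le_mul_of_nonneg_left (mean_pos hW1) hx0.le
    exact mul_le_mul h1 hVlow (Real.exp_pos _).le hA0
  have hfin : x / W * Real.exp (-(K * (J + 1))) / 2 - 15 * ((J : ℝ) + 2) * (x / z) ≤
      2 * ((Vb χ z x).card : ℝ) * (x / z) := by
    have : 3 * E ≤ 15 * ((J : ℝ) + 2) * (x / z) := by
      calc 3 * E ≤ 3 * (5 * ((J : ℝ) + 2) * (x / z)) := by linarith
        _ = _ := by ring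
    linarith
  have hfin2 : z / W * Real.exp (-(K * (J + 1))) / 2 - 15 * ((J : ℝ) + 2) ≤
      2 * ((Vb χ z x).card : ℝ) := by
    have hxz : 0 < (x : ℝ) / z := by positivity
    refine le_of_mul_le_mul_right ?_ hxz
    refine le_trans (le_of_eq ?_) hfin
    have : (z : ℝ) * (x / z) = x := by field_simp
    have e1 : (z / W * Real.exp (-(K * (J + 1))) / 2 - 15 * ((J : ℝ) + 2)) * (x / z) =
      (z * (x / z)) / W * Real.exp (-(K * (J + 1))) / 2 - 15 * ((J : ℝ) + 2) * (x / z) := by ring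
    rw [e1, this]
  -- the numbers
  have hJ' := hJ1 J (by omega)
  set n : ℕ := 2 ^ (J - 1) with hn
  have hnr : ((n : ℕ) : ℝ) = 2 ^ (J - 1) := by rw [hn]; push_cast; rfl
  rw [← hnr] at hJ'
  have hzn : (z : ℝ) = 2 ^ n * 2 ^ n := by
    rw [hz, ← pow_add]
    have : 2 ^ J = n + n := by
      rw [hn, ← two_mul, ← pow_succ']
      congr 1
      omega
    rw [this]
    push_cast
    rfl
  have hJ3 : (0 : ℝ) ≤ (J : ℝ) + 3 := by positivity
  have hc1 : K * (J + 1) + Real.log W + Real.log 2 ≤ n * Real.log 2 := by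
    have h1 : (K + Real.log W + 2) / Real.log 2 * ((J : ℝ) + 3) ≤ n := by
      have h2 : (K + Real.log W + 2) / Real.log 2 * ((J : ℝ) + 3) ≤
        ((K + Real.log W + 2) / Real.log 2 + 30) * ((J : ℝ) + 3) := by nlinarith
      linarith
    have h2 : (K + Real.log W + 2) * ((J : ℝ) + 3) ≤ n * Real.log 2 := by
      have h3 := mul_le_mul_of_nonneg_right h1 hlog2.le
      have h4 : (K + Real.log W + 2) / Real.log 2 * ((J : ℝ) + 3) * Real.log 2 =
        (K + Real.log W + 2) * ((J : ℝ) + 3) := by field_simp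
      rwa [h4] at h3
    refine le_trans ?_ h2
    have hl2 : Real.log 2 ≤ 2 := by linarith [Real.log_two_lt_d9]
    have hJ0 : (0 : ℝ) ≤ J := Nat.cast_nonneg _
    nlinarith [mul_nonneg hWlog hJ0]
  have hc2 : 30 * ((J : ℝ) + 2) ≤ 2 ^ n := by
    have h1 : 30 * ((J : ℝ) + 3) ≤ n := by
      have h2 : 30 * ((J : ℝ) + 3) ≤
        ((K + Real.log W + 2) / Real.log 2 + 30) * ((J : ℝ) + 3) := by
        have : 0 ≤ (K + Real.log W + 2) / Real.log 2 := by positivity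
        nlinarith
      linarith
    have h2 : ((n : ℕ) : ℝ) ≤ 2 ^ n := by exact_mod_cast Nat.lt_two_pow_self.le
    linarith
  have hc3 : 2 * (2 : ℝ) ^ n ≤ z / W * Real.exp (-(K * (J + 1))) := by
    have h1 : Real.exp (K * (J + 1) + Real.log W + Real.log 2) ≤ 2 ^ n := by
      calc Real.exp (K * (J + 1) + Real.log W + Real.log 2) ≤ Real.exp (n * Real.log 2) :=
            Real.exp_le_exp.mpr hc1
        _ = 2 ^ n := by
            rw [← Real.log_pow, Real.exp_log (by positivity)]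
    rw [Real.exp_add, Real.exp_add, Real.exp_log hWr, Real.exp_log (by norm_num)] at h1
    rw [Real.exp_neg, hzn]
    have h2 : 0 < Real.exp (K * (J + 1)) := Real.exp_pos _
    rw [← div_eq_mul_inv, div_div, le_div_iff₀ (by positivity)]
    have h3 : (0 : ℝ) < 2 ^ n := by positivity
    nlinarith
  have hc4 : (2 : ℝ) ^ n ≤ 4 * ((Vb χ z x).card : ℝ) := by linarith
  have hc5 : ((2 ^ n : ℕ) : ℝ) ≤ ((4 * (Vb χ z x).card : ℕ) : ℝ) := by
    push_cast
    exact hc4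
  exact_mod_cast hc5

/-- **Many small primes at which a character is not `1`.** -/
theorem many_primes : ∃ (A1 J1 W : ℕ), 0 < W ∧ ∀ (N : ℕ) (χ : DirichletCharacter ℂ N),
    0 < N → χ ≠ 1 → ∀ J ≥ J1, ∀ x : ℕ, W * N * (2 ^ 2 ^ J) ^ A1 ≤ x →
      2 ^ 2 ^ (J - 1) ≤ 4 * ((range x).filter fun p : ℕ => p.Prime ∧ χ (p : ZMod N) ≠ 1).card := by
  obtain ⟨A1, J1, z0, hz0, H⟩ := many_primes_aux
  refine ⟨A1, J1 + z0, Wz z0, Wz_pos z0, ?_⟩
  intro N χ hN hχ J hJ x hx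
  have hW0 := Wz_pos z0
  have : NeZero (Wz z0 * N) := ⟨(Nat.mul_pos hW0 hN).ne'⟩
  have hdvd : N ∣ Wz z0 * N := dvd_mul_left _ _
  have hχ' : DirichletCharacter.changeLevel hdvd χ ≠ 1 := by
    intro h
    apply hχ
    exact (DirichletCharacter.changeLevel_eq_one_iff hdvd).mp h
  have h1 := H (Wz z0 * N) (DirichletCharacter.changeLevel hdvd χ) (Nat.mul_pos hW0 hN) hχ'
    (dvd_mul_right _ _) J (by omega) x hx
  refine h1.trans (Nat.mul_le_mul_left 4 (Finset.card_le_card ?_))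
  intro p hp
  obtain ⟨h2, h3, h4, h5⟩ := Finset.mem_filter.mp hp
  refine Finset.mem_filter.mpr ⟨h2, h3, ?_⟩
  intro h6
  apply h5
  have hpN : p.Coprime N := by
    rw [← ZMod.isUnit_iff_coprime]
    by_contra hcon
    rw [χ.map_nonunit hcon] at h6
    exact zero_ne_one h6
  have hpW : p.Coprime (Wz z0) := by
    rw [Nat.Prime.coprime_iff_not_dvd h3, dvd_Wz_iff h3]
    have : z0 < 2 ^ 2 ^ J := by
      calc z0 ≤ J := by omega
        _ < 2 ^ J := Nat.lt_two_pow_self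
        _ < 2 ^ 2 ^ J := Nat.lt_two_pow_self
    omega
  have hu : IsUnit ((p : ℕ) : ZMod (Wz z0 * N)) := by
    rw [ZMod.isUnit_iff_coprime]
    exact Nat.Coprime.mul_right hpW hpN
  have h7 := DirichletCharacter.changeLevel_eq_cast_of_dvd χ hdvd hu.unit
  rw [IsUnit.unit_spec] at h7
  rw [h7]
  rw [← h6]
  congr 1
  exact ZMod.cast_natCast hdvd p

end Pool.Agent.V7H55.ZC
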