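import Pool.Agent.V7H55.ZC.Coat
import Pool.Agent.V7H55.ZC.Sieve3
import Pool.Agent.V7H55.ZC.Pk

/-! Many small usable primes. -/

set_option autoImplicit false

namespace Pool.Agent.V7H55.ZC

open NumberField Finset Filter Topology Pool.Agent.V7H55.GG Pool.Agent.V7H55.LT
  Pool.Agent.W401.Cheb
open scoped Classical

/-- all the orbits of `σ` on the set of the embeddings are invariant under `R` -/
def Absorbs (L : Type) {M : Type} [Field L] [NumberField L] [Field M] [NumberField M]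
    (R : Subgroup Gal(M/ℚ)) (σ : Gal(M/ℚ)) : Prop :=
  ∀ τ : L →ₐ[ℚ] M, ∀ ν ∈ R, ∃ k : ℕ, mv ν τ = mv (σ ^ k) τ

/-- the condition for the normal subgroup `R` -/
def CondR (L : Type) {M : Type} [Field L] [NumberField L] [Field M] [NumberField M]
    (R : Subgroup Gal(M/ℚ)) : Prop :=
  (∀ σ, ¬ Absorbs L R σ) ∨ ∃ H : Subgroup Gal(M/ℚ), H ≠ ⊤ ∧ commutator Gal(M/ℚ) ≤ H ∧ R ≤ H ∧
    ∀ σ, Absorbs L R σ → σ ∈ H

theorem moves_of_not_absorbs {L M : Type} [Field L] [NumberField L] [Field M] [NumberField M]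
    {R : Subgroup Gal(M/ℚ)} {σ : Gal(M/ℚ)} (h : ¬ Absorbs L R σ) :
    ∃ τ : L →ₐ[ℚ] M, Moves L R σ τ := by
  unfold Absorbs at h
  push Not at h
  exact h

theorem growth (c1 c2 : ℝ) : ∀ᶠ B : ℝ in atTop,
    B ^ (1 / 8 : ℝ) + c1 + c2 * Real.log B ≤ B ^ (1 / 4 : ℝ) / 4 := by
  have h1 : Tendsto (fun B : ℝ => B ^ (1 / 8 : ℝ) / B ^ (1 / 4 : ℝ)) atTop (𝓝 0) := by
    have h2 : Tendsto (fun B : ℝ => B ^ (-(1 / 8) : ℝ)) atTop (𝓝 0) :=
      tendsto_rpow_neg_atTop (by norm_num)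
    refine h2.congr' ?_
    filter_upwards [eventually_gt_atTop 0] with B hB
    rw [← Real.rpow_sub hB]
    norm_num
  have h3 : Tendsto (fun B : ℝ => c1 / B ^ (1 / 4 : ℝ)) atTop (𝓝 0) :=
    tendsto_const_nhds.div_atTop (tendsto_rpow_atTop (by norm_num))
  have h4 : Tendsto (fun B : ℝ => c2 * (Real.log B / B ^ (1 / 4 : ℝ))) atTop (𝓝 0) := by
    have := ((isLittleO_log_rpow_atTop (show (0 : ℝ) < 1 / 4 by norm_num)).tendsto_div_nhds_zero)
    simpa using this.const_mul c2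
  have h5 := (h1.add h3).add h4
  rw [add_zero, add_zero] at h5
  filter_upwards [h5.eventually (gt_mem_nhds (show (0 : ℝ) < 1 / 4 by norm_num)),
    eventually_gt_atTop 0] with B hB hB0
  have hp : 0 < B ^ (1 / 4 : ℝ) := Real.rpow_pos_of_pos hB0 _
  have e : B ^ (1 / 8 : ℝ) / B ^ (1 / 4 : ℝ) + c1 / B ^ (1 / 4 : ℝ) +
      c2 * (Real.log B / B ^ (1 / 4 : ℝ)) =
      (B ^ (1 / 8 : ℝ) + c1 + c2 * Real.log B) / B ^ (1 / 4 : ℝ) := by
    field_simp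
  rw [e, div_lt_iff₀ hp] at hB
  linarith

/-- **Many small usable primes.** -/
theorem count_usable (m : ℕ) : ∃ K0 : ℕ, ∀ Q : ℕ, ∃ B0 : ℝ, 1 < B0 ∧
    ∀ (L M : Type) [Field L] [NumberField L] [Field M] [NumberField M] [IsNormalClosure ℚ L M],
    Module.finrank ℚ M = m → ∀ (B : ℝ) (R : Subgroup Gal(M/ℚ)), B0 ≤ B → Sm B R → CondR L R →
    ((discr L).natAbs : ℝ) ≤ B ^ Q → ∃ (S : Finset ℕ) (X : ℕ), (X : ℝ) ≤ B ^ K0 ∧
      (∀ p ∈ S, p ≤ X) ∧ (∀ p ∈ S, Usable L R p ∧ ¬ p ∣ (discr L).natAbs) ∧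
      B ^ (1 / 8 : ℝ) ≤ S.card := by
  obtain ⟨A1, J1, W, hW, hprimes⟩ := many_primes
  obtain ⟨A, k, hA, hchar⟩ := exists_char m
  refine ⟨k + A1 + 1, fun Q => ?_⟩
  have hA0 : 0 < A := by linarith
  have hev : ∀ᶠ B : ℝ in atTop, (1 < B ∧ (W : ℝ) * A ≤ B ∧ ((2 ^ 2 ^ (J1 + 1) : ℕ) : ℝ) ≤ B) ∧
      (B ^ (1 / 8 : ℝ) + 2 * Real.log A + 2 * ((k : ℝ) + Q) * Real.log B ≤ B ^ (1 / 4 : ℝ) / 4) := by
    have h1 := growth (2 * Real.log A) (2 * ((k : ℝ) + Q))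
    filter_upwards [h1, eventually_gt_atTop 1, eventually_ge_atTop ((W : ℝ) * A),
      eventually_ge_atTop (((2 ^ 2 ^ (J1 + 1) : ℕ) : ℝ))] with B h2 h3 h4 h5
    exact ⟨⟨h3, h4, h5⟩, h2⟩
  have hev2 : ∀ᶠ B : ℝ in atTop, (B ^ (1 / 4 : ℝ) / 4 ≤
      (((range (⌊B⌋₊ + 1)).filter fun p => p.Prime ∧ True).card : ℝ)) := by
    have h1 := all_dense (1 / 2) (by norm_num)
    have h2 : Tendsto (fun B : ℝ => ⌊B⌋₊) atTop atTop := tendsto_nat_floor_atTop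
    filter_upwards [h2.eventually h1, eventually_ge_atTop 2] with B h3 h4
    refine le_trans ?_ h3
    have h5 : B / 2 ≤ ((⌊B⌋₊ : ℕ) : ℝ) := by
      have := Nat.lt_floor_add_one B
      linarith
    have h6 : (B / 2) ^ (1 - 1 / 2 : ℝ) ≤ ((⌊B⌋₊ : ℕ) : ℝ) ^ (1 - 1 / 2 : ℝ) :=
      Real.rpow_le_rpow (by linarith) h5 (by norm_num)
    refine le_trans ?_ h6
    have h7 : (B / 2) ^ (1 / 4 : ℝ) ≤ (B / 2) ^ (1 - 1 / 2 : ℝ) :=
      Real.rpow_le_rpow_of_exponent_le (by linarith) (by norm_num)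
    refine le_trans ?_ h7
    rw [Real.div_rpow (by linarith) (by norm_num)]
    have h8 : (2 : ℝ) ^ (1 / 4 : ℝ) ≤ 4 := by
      calc (2 : ℝ) ^ (1 / 4 : ℝ) ≤ 2 ^ (1 : ℝ) :=
            Real.rpow_le_rpow_of_exponent_le (by norm_num) (by norm_num)
        _ ≤ 4 := by norm_num
    have h9 : 0 < (2 : ℝ) ^ (1 / 4 : ℝ) := Real.rpow_pos_of_pos (by norm_num) _
    have h10 : 0 ≤ B ^ (1 / 4 : ℝ) := Real.rpow_nonneg (by linarith) _
    gcongr
  obtain ⟨B0, hB0⟩ := eventually_atTop.mp (hev.and hev2)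
  refine ⟨max B0 2, lt_of_lt_of_le (by norm_num) (le_max_right _ _), ?_⟩
  intro L M _ _ _ _ hM hm B R hB hSm hcond hD
  have hgal : IsGalois ℚ M := isGalois_nc L M
  obtain ⟨⟨⟨hB1, hWA, hJB⟩, hgr⟩, hall⟩ := hB0 B ((le_max_left _ _).trans hB)
  have hBpos : 0 < B := by linarith
  set D := (discr L).natAbs with hDdef
  have hD0 : D ≠ 0 := Int.natAbs_ne_zero.mpr (discr_ne_zero L)
  have hDpos : (0 : ℝ) < D := by exact_mod_cast Nat.pos_of_ne_zero hD0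
  have hlogD : Real.log D ≤ Q * Real.log B := by
    rw [← Real.log_pow]
    exact Real.log_le_log hDpos hD
  have hlogB : 0 ≤ Real.log B := Real.log_nonneg hB1.le
  have hlogA : 0 ≤ Real.log A := Real.log_nonneg hA
  -- a reduction
  have key : ∀ (T : Finset ℕ) (N X : ℕ), N ≠ 0 → (N : ℝ) ≤ A * B ^ k → (X : ℝ) ≤ B ^ (k + A1 + 1) →
      (∀ p ∈ T, p.Prime ∧ p ≤ X) → (∀ p ∈ T, ¬ p ∣ N → Usable L R p) →
      B ^ (1 / 4 : ℝ) / 4 ≤ T.card → ∃ (S : Finset ℕ) (X : ℕ), (X : ℝ) ≤ B ^ (k + A1 + 1) ∧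
      (∀ p ∈ S, p ≤ X) ∧ (∀ p ∈ S, Usable L R p ∧ ¬ p ∣ D) ∧ B ^ (1 / 8 : ℝ) ≤ S.card := by
    intro T N X hN0 hN hX hT1 hT2 hT3
    refine ⟨T.filter fun p => ¬ p ∣ N ∧ ¬ p ∣ D, X, hX, fun p hp =>
      (hT1 p (Finset.mem_filter.mp hp).1).2, fun p hp => ?_, ?_⟩
    · obtain ⟨h1, h2, h3⟩ := Finset.mem_filter.mp hp
      exact ⟨hT2 p h1 h2, h3⟩
    · have h1 : T.card ≤ (T.filter fun p => ¬ p ∣ N ∧ ¬ p ∣ D).card +
          (N.primeFactors.card + D.primeFactors.card) := by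
        rw [← Finset.card_filter_add_card_filter_not (s := T) (fun p => ¬ p ∣ N ∧ ¬ p ∣ D)]
        refine Nat.add_le_add_left ?_ _
        refine le_trans (Finset.card_le_card ?_) (Finset.card_union_le _ _)
        intro p hp
        obtain ⟨h1, h2⟩ := Finset.mem_filter.mp hp
        rw [Finset.mem_union, Nat.mem_primeFactors, Nat.mem_primeFactors]
        by_cases h3 : p ∣ N
        · exact Or.inl ⟨(hT1 p h1).1, h3, hN0⟩
        · by_cases h4 : p ∣ D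
          · exact Or.inr ⟨(hT1 p h1).1, h4, hD0⟩
          · exact absurd ⟨h3, h4⟩ h2
      have h2 : (T.card : ℝ) ≤ ((T.filter fun p => ¬ p ∣ N ∧ ¬ p ∣ D).card : ℝ) +
          ((N.primeFactors.card : ℝ) + (D.primeFactors.card : ℝ)) := by exact_mod_cast h1
      have h3 := card_primeFactors_le N hN0
      have h4 := card_primeFactors_le D hD0
      have h5 : Real.log N ≤ Real.log A + k * Real.log B := by
        rw [← Real.log_pow, ← Real.log_mul hA0.ne' (pow_pos hBpos k).ne']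
        refine Real.log_le_log ?_ hN
        exact_mod_cast Nat.pos_of_ne_zero hN0
      nlinarith
  rcases hcond with hc | ⟨H, hH, hcH, hRH, hσ⟩
  · refine key ((range (⌊B⌋₊ + 1)).filter fun p => p.Prime ∧ True) 1 ⌊B⌋₊ one_ne_zero ?_ ?_ ?_ ?_
      hall
    · rw [Nat.cast_one]
      have : 1 ≤ B ^ k := one_le_pow₀ hB1.le
      nlinarith
    · refine (Nat.floor_le hBpos.le).trans ?_
      calc B = B ^ 1 := (pow_one B).symm
        _ ≤ B ^ (k + A1 + 1) := pow_le_pow_right₀ hB1.le (by omega)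
    · intro p hp
      obtain ⟨h1, h2, -⟩ := Finset.mem_filter.mp hp
      have := Finset.mem_range.mp h1
      exact ⟨h2, by omega⟩
    · intro p hp _
      obtain ⟨h1, h2, -⟩ := Finset.mem_filter.mp hp
      have hpF : Fact p.Prime := ⟨h2⟩
      obtain ⟨φ⟩ := exists_hom M p
      obtain ⟨σ, hσ⟩ := exists_frob_all φ
      exact ⟨hpF, φ, σ, hσ, moves_of_not_absorbs (hc σ)⟩
  · obtain ⟨N, χ, hN0, hN, hχ, hdet⟩ := hchar M hm B R H hB1.le hSm hH hcH hRH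
    -- the parameter `J`
    obtain ⟨J, hJ1, hJlo, hJhi⟩ : ∃ J : ℕ, J1 ≤ J ∧ 1 ≤ J ∧ ((2 ^ 2 ^ J : ℕ) : ℝ) ≤ B ∧
        B < ((2 ^ 2 ^ (J + 1) : ℕ) : ℝ) := by
      have hex : ∃ j : ℕ, B < ((2 ^ 2 ^ j : ℕ) : ℝ) := by
        obtain ⟨j, hj⟩ := exists_nat_gt B
        refine ⟨j, hj.trans ?_⟩
        have : j < 2 ^ 2 ^ j := Nat.lt_two_pow_self.trans Nat.lt_two_pow_self
        exact_mod_cast this
      have h1 := Nat.find_spec hex
      have h2 : J1 + 1 < Nat.find hex := by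
        by_contra hcon
        push Not at hcon
        have h3 : (2 ^ 2 ^ Nat.find hex : ℕ) ≤ 2 ^ 2 ^ (J1 + 1) :=
          Nat.pow_le_pow_right (by norm_num) (Nat.pow_le_pow_right (by norm_num) hcon)
        have h4 : ((2 ^ 2 ^ Nat.find hex : ℕ) : ℝ) ≤ ((2 ^ 2 ^ (J1 + 1) : ℕ) : ℝ) := by
          exact_mod_cast h3
        linarith
      refine ⟨Nat.find hex - 1, by omega, by omega, ?_, ?_⟩
      · have := Nat.find_min hex (m := Nat.find hex - 1) (by omega)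
        exact not_lt.mp this
      · have : Nat.find hex - 1 + 1 = Nat.find hex := by omega
        rw [this]
        exact h1
    obtain ⟨hJlo1, hJhi1⟩ := hJhi
    set x : ℕ := W * N * (2 ^ 2 ^ J) ^ A1 with hx
    have h1 := hprimes N χ hN0 hχ J hJ1 x le_rfl
    refine key ((range x).filter fun p : ℕ => p.Prime ∧ χ (p : ZMod N) ≠ 1) N x hN0.ne' hN ?_ ?_
      ?_ ?_
    · rw [hx]
      push_cast
      push_cast at hJlo1
      have hz : ((2 : ℝ) ^ 2 ^ J) ^ A1 ≤ B ^ A1 := by gcongr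
      calc (W : ℝ) * N * (2 ^ 2 ^ J) ^ A1 ≤ W * (A * B ^ k) * B ^ A1 := by gcongr
        _ = (W * A) * (B ^ k * B ^ A1) := by ring
        _ ≤ B * (B ^ k * B ^ A1) := by gcongr
        _ = B ^ (k + A1 + 1) := by ring
    · intro p hp
      obtain ⟨h2, h3, -⟩ := Finset.mem_filter.mp hp
      exact ⟨h3, (Finset.mem_range.mp h2).le⟩
    · intro p hp hpN
      obtain ⟨h2, h3, h4⟩ := Finset.mem_filter.mp hp
      obtain ⟨hpF, φ, σ, hσ', h5⟩ := hdet p h3 hpN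
      exact ⟨hpF, φ, σ, hσ', moves_of_not_absorbs fun h => h5 h4 (hσ σ h)⟩
    · -- the number
      have h2 : ((2 ^ 2 ^ (J - 1) : ℕ) : ℝ) ≤
          4 * (((range x).filter fun p : ℕ => p.Prime ∧ χ (p : ZMod N) ≠ 1).card : ℝ) := by
        exact_mod_cast h1
      have h3 : B ^ (1 / 4 : ℝ) ≤ ((2 ^ 2 ^ (J - 1) : ℕ) : ℝ) := by
        have h4 : B ≤ (((2 ^ 2 ^ (J - 1) : ℕ) : ℝ)) ^ (4 : ℕ) := by
          refine hJhi1.le.trans (le_of_eq ?_)
          rw [← Nat.cast_pow, ← pow_mul]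
          congr 2
          have : 2 ^ (J + 1) = 2 ^ (J - 1) * 2 ^ 2 := by
            rw [← pow_add]
            congr 1
            omega
          rw [this]
          norm_num
        calc B ^ (1 / 4 : ℝ) ≤ ((((2 ^ 2 ^ (J - 1) : ℕ) : ℝ)) ^ (4 : ℕ)) ^ (1 / 4 : ℝ) :=
              Real.rpow_le_rpow hBpos.le h4 (by norm_num)
          _ = ((2 ^ 2 ^ (J - 1) : ℕ) : ℝ) := by
              rw [← Real.rpow_natCast, ← Real.rpow_mul (Nat.cast_nonneg _)]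
              norm_num
      linarith

end Pool.Agent.V7H55.ZC
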