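import Pool.Agent.V7H55.ZC.Brd

/-! Small elements of abelian subfields, and characters that detect Frobenius elements. -/

set_option autoImplicit false

namespace Pool.Agent.V7H55.ZC

open NumberField Pool.Agent.V7H55.GG Pool.Agent.V7H55.LT Pool.Agent.W401.Cheb
open scoped commutatorElement

/-- homomorphisms to cyclic groups of prime order -/
theorem exists_hom_prime {G : Type} [Group G] [Finite G] (H0 : Subgroup G) (h0 : H0 ≠ ⊤)
    (hc : commutator G ≤ H0) : ∃ (p : ℕ) (_ : Fact p.Prime) (F : G →* Multiplicative (ZMod p)),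
      IsCoatom F.ker ∧ H0 ≤ F.ker ∧ F.ker.index = p := by
  obtain ⟨H, hH, hle⟩ := (eq_top_or_exists_le_coatom H0).resolve_left h0
  have hcH : commutator G ≤ H := hc.trans hle
  have hn : H.Normal := by
    constructor
    intro a ha g
    have h1 : ⁅g, a⁆ ∈ H := hcH (Subgroup.commutator_mem_commutator (Subgroup.mem_top g)
      (Subgroup.mem_top a))
    have h2 : g * a * g⁻¹ = ⁅g, a⁆ * a := by
      rw [commutatorElement_def]; group
    rw [h2]
    exact H.mul_mem h1 ha
  let cg : CommGroup (G ⧸ H) :=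
    { (inferInstance : Group (G ⧸ H)) with
      mul_comm := fun a b => by
        obtain ⟨a, rfl⟩ := QuotientGroup.mk_surjective a
        obtain ⟨b, rfl⟩ := QuotientGroup.mk_surjective b
        change ((a * b : G) : G ⧸ H) = ((b * a : G) : G ⧸ H)
        rw [QuotientGroup.eq]
        have h1 : ⁅b⁻¹, a⁻¹⁆ ∈ H := hcH (Subgroup.commutator_mem_commutator
          (Subgroup.mem_top _) (Subgroup.mem_top _))
        have h2 : (a * b)⁻¹ * (b * a) = ⁅b⁻¹, a⁻¹⁆ := by
          rw [commutatorElement_def]; group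
        rw [h2]; exact h1 }
  have hsimple : IsSimpleGroup (G ⧸ H) := by
    have hnt : Nontrivial (G ⧸ H) := by
      rw [QuotientGroup.nontrivial_iff]
      exact hH.1
    refine { exists_pair_ne := hnt.exists_pair_ne, eq_bot_or_eq_top_of_normal := ?_ }
    intro N _
    have h1 : H ≤ N.comap (QuotientGroup.mk' H) := by
      intro x hx
      rw [Subgroup.mem_comap]
      have : (QuotientGroup.mk' H) x = 1 := by
        rw [QuotientGroup.mk'_apply, QuotientGroup.eq_one_iff]
        exact hx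
      rw [this]
      exact N.one_mem
    rcases hH.le_iff.mp h1 with h2 | h2
    · right
      rw [Subgroup.eq_top_iff']
      intro x
      obtain ⟨x, rfl⟩ := QuotientGroup.mk'_surjective H x
      have h3 : x ∈ N.comap (QuotientGroup.mk' H) := by rw [h2]; exact Subgroup.mem_top x
      exact h3
    · left
      rw [Subgroup.eq_bot_iff_forall]
      intro x hx
      obtain ⟨x, rfl⟩ := QuotientGroup.mk'_surjective H x
      have h3 : x ∈ N.comap (QuotientGroup.mk' H) := hx
      rw [h2] at h3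
      rw [QuotientGroup.mk'_apply, QuotientGroup.eq_one_iff]
      exact h3
  have hprime : (Nat.card (G ⧸ H)).Prime := (CommGroup.is_simple_iff_prime_card
    (α := G ⧸ H)).mp hsimple
  have hpF : Fact (Nat.card (G ⧸ H)).Prime := ⟨hprime⟩
  have hcard2 : Nat.card (Multiplicative (ZMod (Nat.card (G ⧸ H)))) = Nat.card (G ⧸ H) := by
    rw [Nat.card_congr Multiplicative.toAdd, Nat.card_zmod]
  let f : (G ⧸ H) ≃* Multiplicative (ZMod (Nat.card (G ⧸ H))) :=
    mulEquivOfPrimeCardEq rfl hcard2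
  have hker : (f.toMonoidHom.comp (QuotientGroup.mk' H)).ker = H := by
    ext x
    rw [MonoidHom.mem_ker]
    change f _ = 1 ↔ _
    rw [map_eq_one_iff f f.injective, QuotientGroup.mk'_apply, QuotientGroup.eq_one_iff]
  refine ⟨Nat.card (G ⧸ H), hpF, f.toMonoidHom.comp (QuotientGroup.mk' H), ?_, ?_, ?_⟩
  · rw [hker]; exact hH
  · rw [hker]; exact hle
  · rw [hker]; rfl

/-- a small element of a field of prime degree -/
theorem exists_u {M : Type} [Field M] [NumberField M] {m : ℕ} (hm : Nat.card Gal(M/ℚ) = m)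
    {B : ℝ} (hB : 1 ≤ B) {R H : Subgroup Gal(M/ℚ)} (hR : Sm B R) (hH : IsCoatom H)
    (hn : H.Normal) (hRH : R ≤ H) :
    ∃ u : 𝓞 M, (∀ ν : Gal(M/ℚ), ν (u : M) = u ↔ ν ∈ H) ∧
      ∀ w : InfinitePlace M, w (u : M) ≤ (m + m * ((m * m : ℕ) : ℝ) ^ m * B) ^ m := by
  classical
  have hm0 : 0 < m := by rw [← hm]; exact Nat.card_pos
  obtain ⟨y, hy, hyB⟩ := exists_prim hm hR
  obtain ⟨g, hg⟩ : ∃ g, g ∉ H := by
    by_contra hcon
    push Not at hcon
    exact hH.1 ((Subgroup.eq_top_iff' _).mpr hcon)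
  have hcardH : Fintype.card H ≤ m := by
    rw [← Nat.card_eq_fintype_card, ← hm]
    exact Nat.le_of_dvd Nat.card_pos (Subgroup.card_subgroup_dvd_card _)
  let ut : ℕ → 𝓞 M := fun t => ∏ h : H, ((t : 𝓞 M) - (h : Gal(M/ℚ)) • y)
  have hut : ∀ t : ℕ, (ut t : M) = ∏ h : H, ((t : M) - (h : Gal(M/ℚ)) (y : M)) := by
    intro t
    have h1 : (ut t : M) = algebraMap (𝓞 M) M (ut t) := rfl
    rw [h1]
    simp only [ut, map_prod, map_sub, map_natCast]
    rfl
  have hfix : ∀ t : ℕ, ∀ ν ∈ H, ν (ut t : M) = ut t := by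
    intro t ν hν
    rw [hut, map_prod]
    have h1 : ∀ h : H, ν ((t : M) - (h : Gal(M/ℚ)) (y : M)) =
        (t : M) - (((⟨ν, hν⟩ * h : H) : Gal(M/ℚ))) (y : M) := by
      intro h
      rw [map_sub, map_natCast]
      rfl
    rw [Finset.prod_congr rfl fun h _ => h1 h]
    exact Fintype.prod_equiv (Equiv.mulLeft (⟨ν, hν⟩ : H)) _
      (fun h : H => (t : M) - (h : Gal(M/ℚ)) (y : M)) fun h => rfl
  obtain ⟨t, htm, ht⟩ : ∃ t ≤ m, g (ut t : M) ≠ ut t := by
    by_contra hcon
    push Not at hcon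
    let A : Polynomial M := ∏ h : H, (Polynomial.X - Polynomial.C ((h : Gal(M/ℚ)) (y : M)))
    let A' : Polynomial M := ∏ h : H, (Polynomial.X - Polynomial.C (g ((h : Gal(M/ℚ)) (y : M))))
    have hAdeg : A.natDegree ≤ m := by
      rw [Polynomial.natDegree_prod_of_monic _ _ fun h _ => Polynomial.monic_X_sub_C _]
      simp only [Polynomial.natDegree_X_sub_C, Finset.sum_const, smul_eq_mul, mul_one,
        Finset.card_univ]
      exact hcardH
    have hAdeg' : A'.natDegree ≤ m := by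
      rw [Polynomial.natDegree_prod_of_monic _ _ fun h _ => Polynomial.monic_X_sub_C _]
      simp only [Polynomial.natDegree_X_sub_C, Finset.sum_const, smul_eq_mul, mul_one,
        Finset.card_univ]
      exact hcardH
    have hAA' : A - A' = 0 := by
      by_contra hne
      have hsub : (Finset.range (m + 1)).image (fun t : ℕ => (t : M)) ⊆ (A - A').roots.toFinset := by
        intro x hx
        obtain ⟨t, ht, rfl⟩ := Finset.mem_image.mp hx
        rw [Multiset.mem_toFinset, Polynomial.mem_roots hne, Polynomial.IsRoot,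
          Polynomial.eval_sub, sub_eq_zero]
        have h1 := hcon t (by have := Finset.mem_range.mp ht; omega)
        have h2 : A.eval (t : M) = ut t := by
          rw [hut, Polynomial.eval_prod]
          refine Finset.prod_congr rfl fun h _ => ?_
          rw [Polynomial.eval_sub, Polynomial.eval_X, Polynomial.eval_C]
        have h3 : A'.eval (t : M) = g (ut t : M) := by
          rw [hut, map_prod, Polynomial.eval_prod]
          refine Finset.prod_congr rfl fun h _ => ?_
          rw [Polynomial.eval_sub, Polynomial.eval_X, Polynomial.eval_C, map_sub, map_natCast]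
        rw [h2, h3, h1]
      have h1 := Finset.card_le_card hsub
      rw [Finset.card_image_of_injective _ Nat.cast_injective, Finset.card_range] at h1
      have h2 := Multiset.toFinset_card_le (A - A').roots
      have h3 := Polynomial.card_roots' (A - A')
      have h4 : (A - A').natDegree ≤ m :=
        (Polynomial.natDegree_sub_le _ _).trans (max_le hAdeg hAdeg')
      omega
    have h1 : A.eval (y : M) = 0 := by
      rw [Polynomial.eval_prod]
      refine Finset.prod_eq_zero (Finset.mem_univ (1 : H)) ?_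
      rw [Polynomial.eval_sub, Polynomial.eval_X, Polynomial.eval_C]
      change (y : M) - y = 0
      rw [sub_self]
    have h2 : A'.eval (y : M) = 0 := by
      rw [← sub_eq_zero.mp hAA', h1]
    rw [Polynomial.eval_prod, Finset.prod_eq_zero_iff] at h2
    obtain ⟨h, -, h3⟩ := h2
    rw [Polynomial.eval_sub, Polynomial.eval_X, Polynomial.eval_C, sub_eq_zero] at h3
    have h4 : (g * (h : Gal(M/ℚ))) (y : M) = y := h3.symm
    have h5 : g * (h : Gal(M/ℚ)) ∈ H := hRH ((hy _).mp h4)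
    exact hg ((Subgroup.mul_mem_cancel_right H h.2).mp h5)
  refine ⟨ut t, fun ν => ⟨fun hν => ?_, fun hν => hfix t ν hν⟩, ?_⟩
  · by_contra hνH
    have hSt : H < MulAction.stabilizer Gal(M/ℚ) (ut t : M) := by
      refine lt_of_le_of_ne (fun σ hσ => ?_) ?_
      · rw [MulAction.mem_stabilizer_iff]
        exact hfix t σ hσ
      · intro h
        apply hνH
        rw [h, MulAction.mem_stabilizer_iff]
        exact hν
    have h1 := hH.2 _ hSt
    have h2 : g ∈ MulAction.stabilizer Gal(M/ℚ) (ut t : M) := by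
      rw [h1]; exact Subgroup.mem_top g
    exact ht h2
  · intro w
    rw [hut, map_prod]
    set B' : ℝ := m * ((m * m : ℕ) : ℝ) ^ m * B with hB'
    have hB'0 : 0 ≤ B' := by positivity
    have hmr : (1 : ℝ) ≤ m := by exact_mod_cast hm0
    calc ∏ h : H, w ((t : M) - (h : Gal(M/ℚ)) (y : M)) ≤ ∏ h : H, ((m : ℝ) + B') := by
          refine Finset.prod_le_prod (fun h _ => apply_nonneg w _) fun h _ => ?_
          have h1 := conj_le hyB (h : Gal(M/ℚ)) w
          have h6 : w ((t : M) - (h : Gal(M/ℚ)) (y : M)) ≤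
              w (t : M) + w ((h : Gal(M/ℚ)) (y : M)) := by
            rw [sub_eq_add_neg]
            refine (AbsoluteValue.add_le w.1 _ _).trans (le_of_eq ?_)
            have : w.1 (-((h : Gal(M/ℚ)) (y : M))) = w.1 ((h : Gal(M/ℚ)) (y : M)) := by
              exact AbsoluteValue.map_neg w.1 _
            rw [this]
            rfl
          have h7 : w (t : M) = t := place_natCast w t
          have h8 : (t : ℝ) ≤ m := by exact_mod_cast htm
          linarith
      _ = ((m : ℝ) + B') ^ Fintype.card H := by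
          rw [Finset.prod_const, Finset.card_univ]
      _ ≤ ((m : ℝ) + B') ^ m := pow_le_pow_right₀ (by linarith) hcardH

/-- **Characters that detect Frobenius elements outside a subgroup.** -/
theorem exists_char (m : ℕ) : ∃ (A : ℝ) (k : ℕ), 1 ≤ A ∧
    ∀ (M : Type) [Field M] [NumberField M] [IsGalois ℚ M], Module.finrank ℚ M = m →
    ∀ (B : ℝ) (R H0 : Subgroup Gal(M/ℚ)), 1 ≤ B → Sm B R → H0 ≠ ⊤ → commutator Gal(M/ℚ) ≤ H0 →
    R ≤ H0 → ∃ (N : ℕ) (χ : DirichletCharacter ℂ N), 0 < N ∧ (N : ℝ) ≤ A * B ^ k ∧ χ ≠ 1 ∧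
      Detects H0 N χ := by
  set a : ℝ := m + m * ((m * m : ℕ) : ℝ) ^ m + 1 with ha
  have ha1 : 1 ≤ a := by
    rw [ha]
    have : (0 : ℝ) ≤ m + m * ((m * m : ℕ) : ℝ) ^ m := by positivity
    linarith
  refine ⟨16 * (m + 1) ^ 2 * (2 * a ^ m) ^ (m * (m - 1) + 2), m * (m * (m - 1) + 2), ?_, ?_⟩
  · have h1 : (1 : ℝ) ≤ (2 * a ^ m) ^ (m * (m - 1) + 2) := by
      apply one_le_pow₀
      have : 1 ≤ a ^ m := one_le_pow₀ ha1
      linarith
    have h2 : (1 : ℝ) ≤ ((m : ℝ) + 1) ^ 2 := by
      apply one_le_pow₀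
      have : (0 : ℝ) ≤ m := Nat.cast_nonneg m
      linarith
    nlinarith
  intro M _ _ _ hm B R H0 hB hR h0 hc hRH
  have hm' : Nat.card Gal(M/ℚ) = m := by rw [IsGalois.card_aut_eq_finrank, hm]
  obtain ⟨p, hpF, F, hF, hle, hidx⟩ := exists_hom_prime H0 h0 hc
  obtain ⟨u, hu, huB⟩ := exists_u hm' hB hR hF (MonoidHom.normal_ker F) (hRH.trans hle)
  set U : ℝ := (m + m * ((m * m : ℕ) : ℝ) ^ m * B) ^ m with hU
  set U' : ℝ := (a * B) ^ m with hU'
  have hUU' : U ≤ U' := by
    rw [hU, hU']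
    refine pow_le_pow_left₀ (by positivity) ?_ m
    rw [ha]
    have : (0 : ℝ) ≤ m := Nat.cast_nonneg m
    have h2 : (m : ℝ) ≤ m * B := by nlinarith
    nlinarith
  have haB : 1 ≤ a * B := by nlinarith
  have hU'1 : 1 ≤ U' := one_le_pow₀ haB
  have huB' : ∀ w : InfinitePlace M, w (u : M) ≤ U' := fun w => (huB w).trans hUU'
  have hpm : (p : ℝ) ≤ m := by
    have h1 : p ∣ m := by
      rw [← hidx, ← hm']
      exact Subgroup.index_dvd_card _
    have hm0 : 0 < m := by rw [← hm']; exact Nat.card_pos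
    exact_mod_cast Nat.le_of_dvd hm0 h1
  have hfinal : ∀ x : ℝ, x ≤ 16 * (m + 1) ^ 2 * (2 * U') ^ (m * (m - 1) + 2) →
      x ≤ 16 * (m + 1) ^ 2 * (2 * a ^ m) ^ (m * (m - 1) + 2) * B ^ (m * (m * (m - 1) + 2)) := by
    intro x hx
    refine hx.trans (le_of_eq ?_)
    rw [hU', mul_pow a B m, pow_mul B m, ← mul_assoc 2, mul_pow (2 * a ^ m)]
    ring
  have h2U : 1 ≤ 2 * U' := by linarith
  have hdet : ∀ (N : ℕ) (χ : DirichletCharacter ℂ N), Detects F.ker N χ → Detects H0 N χ := by
    intro N χ h r hr hrN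
    obtain ⟨hrF, φ, σ, hσ, h1⟩ := h r hr hrN
    exact ⟨hrF, φ, σ, hσ, fun h2 h3 => h1 h2 (hle h3)⟩
  by_cases hp2 : p = 2
  · obtain ⟨N, χ, hN0, hN, hχ, hD⟩ := quad_char F.ker (by rw [hidx, hp2]) u hu huB'
    refine ⟨N, χ, hN0, hfinal _ (hN.trans ?_), hχ, hdet N χ hD⟩
    have h1 : U' ^ 2 ≤ (2 * U') ^ (m * (m - 1) + 2) := by
      calc U' ^ 2 ≤ (2 * U') ^ 2 := by gcongr; linarith
        _ ≤ (2 * U') ^ (m * (m - 1) + 2) := pow_le_pow_right₀ h2U (by omega)
    have h2 : (1 : ℝ) ≤ ((m : ℝ) + 1) ^ 2 := by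
      apply one_le_pow₀
      have : (0 : ℝ) ≤ m := Nat.cast_nonneg m
      linarith
    calc 16 * U' ^ 2 ≤ 16 * (2 * U') ^ (m * (m - 1) + 2) := by gcongr
      _ ≤ 16 * (m + 1) ^ 2 * (2 * U') ^ (m * (m - 1) + 2) := by
          have : (0 : ℝ) ≤ (2 * U') ^ (m * (m - 1) + 2) := by positivity
          nlinarith
  · obtain ⟨N, χ, hN0, hN, hχ, hD⟩ := odd_char hm hp2 F hF.1 u hu huB' hU'1
    refine ⟨N, χ, hN0, hfinal _ (hN.trans ?_), hχ, hdet N χ hD⟩
    have h1 : (p : ℝ) ^ 2 ≤ 16 * ((m : ℝ) + 1) ^ 2 := by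
      have h2 : (p : ℝ) ≤ m + 1 := by linarith
      have h3 : (p : ℝ) ^ 2 ≤ ((m : ℝ) + 1) ^ 2 := by gcongr
      nlinarith [sq_nonneg ((m : ℝ) + 1)]
    have h2 : (2 * U') ^ (m * (m - 1)) ≤ (2 * U') ^ (m * (m - 1) + 2) :=
      pow_le_pow_right₀ h2U (by omega)
    exact mul_le_mul h1 h2 (by positivity) (by positivity)

end Pool.Agent.V7H55.ZC
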