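import Pool.Agent.V7H55.ZC.Cnt

/-! The bound for the torsion. -/

set_option autoImplicit false

namespace Pool.Agent.V7H55.ZC

open NumberField Finset Pool.Agent.V7H55.GG Pool.Agent.V7H55.LT
open scoped Classical

/-- the condition for all nontrivial normal subgroups -/
def Cond (L M : Type) [Field L] [NumberField L] [Field M] [NumberField M] : Prop :=
  ∀ R : Subgroup Gal(M/ℚ), R.Normal → R ≠ ⊥ → CondR L R

/-- **The bound for the torsion**, for fixed degree of the normal closure. -/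
theorem zc_bound (n m : ℕ) (hn2 : 2 ≤ n) : ∃ c : ℝ, 0 < c ∧ ∀ l : ℕ, 1 ≤ l →
    ∃ C : ℝ, 0 < C ∧ ∀ (L M : Type) [Field L] [NumberField L] [Field M] [NumberField M] [IsNormalClosure ℚ L M],
    Module.finrank ℚ L = n → Module.finrank ℚ M = m → Cond L M →
    (Nat.card {c : ClassGroup (𝓞 L) // c ^ l = 1} : ℝ) ≤
      C * ((discr L).natAbs : ℝ) ^ (1 / 2 - c / l ^ Nat.log 2 m : ℝ) := by
  obtain ⟨K0, hK0⟩ := count_usable m
  set t : ℕ := Nat.log 2 m with ht
  set A : ℕ := ((K0 + 2) ^ t + 1) * m * n + 1 with hA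
  have hAr : (0 : ℝ) < A := by exact_mod_cast (by omega : 0 < A)
  refine ⟨1 / (16 * A), by positivity, ?_⟩
  intro l hl
  have hlr : (1 : ℝ) ≤ l := by exact_mod_cast hl
  set K : ℕ := (K0 + 1) * l with hK
  have hK1 : 1 ≤ K := Nat.mul_pos (by omega) hl
  set e : ℕ := (K + 1) ^ t with he
  set Q : ℕ := (e + 1) * m * n + 1 with hQ
  obtain ⟨B0, hB01, hB0⟩ := hK0 Q
  set b0 : ℝ := B0 + 150 + 2 * ((m * 2 : ℕ) : ℝ) ^ 2 + 2 * (m * ((m * m : ℕ) : ℝ) ^ m) with hb0
  have hpos1 : (0 : ℝ) ≤ 2 * ((m * 2 : ℕ) : ℝ) ^ 2 := by positivity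
  have hpos2 : (0 : ℝ) ≤ 2 * (m * ((m * m : ℕ) : ℝ) ^ m) := by positivity
  have hb01 : 1 < b0 := by rw [hb0]; linarith
  have hQr : (0 : ℝ) < Q := by exact_mod_cast (by omega : 0 < Q)
  set δ : ℝ := 1 / (16 * Q) with hδ
  have hδ0 : 0 < δ := by positivity
  have hδ1 : δ ≤ 1 := by
    rw [hδ, div_le_one (by positivity)]
    have : (1 : ℝ) ≤ Q := by exact_mod_cast (by omega : 1 ≤ Q)
    linarith
  have hδc : 1 / (16 * (A : ℝ)) / (l : ℝ) ^ t ≤ δ := by
    rw [hδ, div_div]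
    refine one_div_le_one_div_of_le (by positivity) ?_
    have h1 : Q ≤ A * l ^ t := by
      have h2 : K + 1 ≤ (K0 + 2) * l := by
        rw [hK]
        have : (K0 + 2) * l = (K0 + 1) * l + l := by ring
        omega
      have h3 : e ≤ (K0 + 2) ^ t * l ^ t := by
        rw [he, ← mul_pow]
        exact Nat.pow_le_pow_left h2 t
      have h4 : 1 ≤ l ^ t := Nat.one_le_pow _ _ (by omega)
      calc Q = (e + 1) * m * n + 1 := hQ
        _ ≤ ((K0 + 2) ^ t * l ^ t + l ^ t) * m * n + l ^ t := by gcongr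
        _ = A * l ^ t := by rw [hA]; ring
    have h2 : (Q : ℝ) ≤ A * (l : ℝ) ^ t := by exact_mod_cast h1
    nlinarith
  obtain ⟨C1, hC10, hC1⟩ := tor_trivial n hn2 1 one_pos
  obtain ⟨C2, hC20, hC2⟩ := pack_usable n hn2 δ hδ0
  refine ⟨C1 * b0 ^ (2 * Q) + C2, by positivity, ?_⟩
  intro L M _ _ _ _ hMn hn hm hcond
  have hgal : IsGalois ℚ M := isGalois_nc L M
  have hm' : Nat.card Gal(M/ℚ) = m := by rw [IsGalois.card_aut_eq_finrank, hm]
  have hm0 : 0 < m := by rw [← hm']; exact Nat.card_pos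
  have hD2 : 2 < (discr L).natAbs := two_lt_D hn2 L hn
  have hdiscr : |(discr L : ℝ)| = ((discr L).natAbs : ℝ) := abs_discr_eq L
  set D := (discr L).natAbs with hDdef
  have hDr : (2 : ℝ) < D := by exact_mod_cast hD2
  have hD0 : (0 : ℝ) < D := by linarith
  have hD1 : (1 : ℝ) ≤ D := by linarith
  set b : ℝ := (D : ℝ) ^ (1 / (Q : ℝ)) with hb
  have hb1 : 1 ≤ b := Real.one_le_rpow hD1 (by positivity)
  have hbQ : b ^ Q = D := by
    rw [hb, ← Real.rpow_natCast, ← Real.rpow_mul hD0.le, one_div, inv_mul_cancel₀ hQr.ne',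
      Real.rpow_one]
  have hT0 : (0 : ℝ) ≤ Nat.card {c : ClassGroup (𝓞 L) // c ^ l = 1} := Nat.cast_nonneg _
  have hCpos : 0 ≤ C1 * b0 ^ (2 * Q) + C2 := by positivity
  have hred : (C1 * b0 ^ (2 * Q) + C2) * (D : ℝ) ^ (1 / 2 - δ) ≤
      (C1 * b0 ^ (2 * Q) + C2) * (D : ℝ) ^ (1 / 2 - 1 / (16 * (A : ℝ)) / (l : ℝ) ^ t) := by
    refine mul_le_mul_of_nonneg_left ?_ hCpos
    exact Real.rpow_le_rpow_of_exponent_le hD1 (by linarith)
  refine le_trans ?_ hred
  rcases lt_or_ge b b0 with hlt | hge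
  · -- small discriminants
    have h1 := hC1 l L hn
    rw [← hDdef] at h1
    have h2 : (D : ℝ) ^ (2 : ℝ) ≤ b0 ^ (2 * Q) := by
      have h3 : (D : ℝ) ≤ b0 ^ Q := by
        rw [← hbQ]
        exact pow_le_pow_left₀ (by linarith) hlt.le Q
      have h4 : (D : ℝ) ^ (2 : ℝ) = (D : ℝ) ^ 2 := by
        rw [← Real.rpow_natCast]; norm_num
      rw [h4]
      calc (D : ℝ) ^ 2 ≤ (b0 ^ Q) ^ 2 := pow_le_pow_left₀ hD0.le h3 2
        _ = b0 ^ (2 * Q) := by rw [← pow_mul, mul_comm]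
    calc (Nat.card {c : ClassGroup (𝓞 L) // c ^ l = 1} : ℝ) ≤ C1 * (D : ℝ) ^ (1 / 2 + 1 : ℝ) := h1
      _ ≤ C1 * ((D : ℝ) ^ (2 : ℝ) * (D : ℝ) ^ (1 / 2 - δ)) := by
          rw [← Real.rpow_add hD0]
          refine mul_le_mul_of_nonneg_left (Real.rpow_le_rpow_of_exponent_le hD1 (by linarith))
            hC10.le
      _ ≤ C1 * (b0 ^ (2 * Q) * (D : ℝ) ^ (1 / 2 - δ)) := by gcongr
      _ = C1 * b0 ^ (2 * Q) * (D : ℝ) ^ (1 / 2 - δ) := by ring
      _ ≤ _ := by
          have : C1 * b0 ^ (2 * Q) ≤ C1 * b0 ^ (2 * Q) + C2 := by linarith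
          gcongr
  · -- the levels
    set lev : ℕ → ℝ := fun i => b ^ (K + 1) ^ i with hlev
    have hlev1 : ∀ i, 1 ≤ lev i := fun i => one_le_pow₀ hb1
    have hlevb : ∀ i, b ≤ lev i := fun i => by
      calc b = b ^ 1 := (pow_one b).symm
        _ ≤ b ^ (K + 1) ^ i := pow_le_pow_right₀ hb1 (Nat.one_le_pow _ _ (by omega))
    have hlevS : ∀ i, lev (i + 1) = lev i ^ (K + 1) := fun i => by
      simp only [hlev]
      rw [← pow_mul, pow_succ]
    have hstep : ∀ i, 2 * ((m * 2 : ℕ) : ℝ) ^ 2 * lev i ^ K ≤ lev (i + 1) := fun i => by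
      rw [hlevS, pow_succ (lev i) K, mul_comm (lev i ^ K)]
      have h1 : 2 * ((m * 2 : ℕ) : ℝ) ^ 2 ≤ lev i := by
        have := hlevb i
        rw [hb0] at hge
        linarith
      have h2 : 0 ≤ lev i ^ K := pow_nonneg (by linarith [hlev1 i]) K
      exact mul_le_mul_of_nonneg_right h1 h2
    obtain ⟨i, him, R, hSm, hR⟩ := exists_level hm' lev hlev1 hK1 hstep
    -- `R` is not trivial
    have hRb : R ≠ ⊥ := by
      rintro rfl
      have h1 := disc_of_bot hm hSm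
      have h2 := disc_tower hn hm (Classical.choice (by
        rw [← Fintype.card_pos_iff, card_hom L M, hn]
        omega : Nonempty (L →ₐ[ℚ] M)))
      rw [abs_discr_eq] at h1
      have h3 : 2 * (m * ((m * m : ℕ) : ℝ) ^ m * lev i) ≤ b ^ (e + 1) := by
        have h4 : 2 * (m * ((m * m : ℕ) : ℝ) ^ m) ≤ b := by
          rw [hb0] at hge
          linarith
        have h5 : lev i ≤ b ^ e := by
          simp only [hlev, he]
          refine pow_le_pow_right₀ hb1 (Nat.pow_le_pow_right (by omega) him)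
        calc 2 * (m * ((m * m : ℕ) : ℝ) ^ m * lev i) =
              (2 * (m * ((m * m : ℕ) : ℝ) ^ m)) * lev i := by ring
          _ ≤ b * b ^ e := mul_le_mul h4 h5 (by linarith [hlev1 i]) (by linarith)
          _ = b ^ (e + 1) := by ring
      have h4 : ((discr M).natAbs : ℝ) ≤ b ^ ((e + 1) * (m * (m - 1))) := by
        refine h1.trans ?_
        rw [pow_mul b]
        exact pow_le_pow_left₀ (by
          have := hlev1 i
          positivity) h3 _
      have h5 : (D : ℝ) ^ m ≤ b ^ ((e + 1) * (m * (m - 1)) * n) := by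
        calc (D : ℝ) ^ m ≤ ((discr M).natAbs : ℝ) ^ n := by exact_mod_cast h2
          _ ≤ (b ^ ((e + 1) * (m * (m - 1)))) ^ n := pow_le_pow_left₀ (Nat.cast_nonneg _) h4 n
          _ = _ := by rw [← pow_mul]
      rw [← hbQ, ← pow_mul] at h5
      have h6 : (e + 1) * (m * (m - 1)) * n < Q * m := by
        rw [hQ]
        have h7 : m - 1 ≤ m := by omega
        calc (e + 1) * (m * (m - 1)) * n ≤ (e + 1) * (m * m) * n := by gcongr
          _ = ((e + 1) * m * n) * m := by ring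
          _ < ((e + 1) * m * n + 1) * m := Nat.mul_lt_mul_of_pos_right (by omega) hm0
      have h7 : b ^ ((e + 1) * (m * (m - 1)) * n) < b ^ (Q * m) :=
        pow_lt_pow_right₀ (by linarith) h6
      linarith
    have hRn : R.Normal := hSm.normal
    have hB0le : B0 ≤ lev i := by
      have := hlevb i
      rw [hb0] at hge
      linarith
    obtain ⟨S, X, hX, hSX, hS, hScard⟩ := hB0 L M hm (lev i) R hB0le hSm (hcond R hRn hRb) (by
      rw [← hDdef, ← hbQ]
      exact pow_le_pow_left₀ (by linarith) (hlevb i) Q)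
    have hkey := hC2 l hl L M R S X hn hS hSX (by
      intro θ hθ
      apply hR θ
      intro w
      refine (hθ w).trans ?_
      have h150 : (150 : ℝ) ≤ lev i := by
        have := hlevb i
        rw [hb0] at hge
        linarith
      calc (150 : ℝ) ^ l * (X : ℝ) ^ l ≤ lev i ^ l * (lev i ^ K0) ^ l := by gcongr
        _ = lev i ^ K := by
            rw [← mul_pow, ← pow_succ', ← pow_mul])
    rw [← hDdef] at hkey
    have hbr : b ^ (1 / 8 : ℝ) ≤ (S.card : ℝ) :=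
      le_trans (Real.rpow_le_rpow (by linarith) (hlevb i) (by norm_num)) hScard
    have hb8 : b ^ (1 / 8 : ℝ) = (D : ℝ) ^ (2 * δ) := by
      rw [hb, ← Real.rpow_mul hD0.le]
      congr 1
      rw [hδ]
      field_simp
      norm_num
    rw [hb8] at hbr
    have hDδ : 0 < (D : ℝ) ^ (2 * δ) := Real.rpow_pos_of_pos hD0 _
    have h1 : (Nat.card {c : ClassGroup (𝓞 L) // c ^ l = 1} : ℝ) * (D : ℝ) ^ (2 * δ) ≤
        C2 * (D : ℝ) ^ (1 / 2 + δ) := le_trans (by gcongr) hkey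
    have h2 : C2 * (D : ℝ) ^ (1 / 2 + δ) = (C2 * (D : ℝ) ^ (1 / 2 - δ)) * (D : ℝ) ^ (2 * δ) := by
      rw [mul_assoc, ← Real.rpow_add hD0]
      congr 2
      ring
    rw [h2] at h1
    have h3 := le_of_mul_le_mul_right h1 hDδ
    refine h3.trans ?_
    have : C2 ≤ C1 * b0 ^ (2 * Q) + C2 := by
      have : 0 ≤ C1 * b0 ^ (2 * Q) := by positivity
      linarith
    gcongr

end Pool.Agent.V7H55.ZC
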