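import Pool.Agent.V7H55.ZC.Fin

/-! Galois fields. -/

set_option autoImplicit false

namespace Pool.Agent.V7H55.ZC

open NumberField Finset Pool.Agent.V7H55.GG Pool.Agent.V7H55.LT
open scoped Classical commutatorElement

/-- The condition for a group: for every normal subgroup `P` of prime order, the elements `σ` such
that `P` is contained in the group generated by `σ` are in a proper subgroup that contains all
commutators. -/
def PrimeCond (G : Type) [Group G] : Prop :=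
  ∀ P : Subgroup G, P.Normal → (Nat.card P).Prime → ∃ H : Subgroup G, H ≠ ⊤ ∧
    commutator G ≤ H ∧ ∀ σ : G, P ≤ Subgroup.zpowers σ → σ ∈ H

theorem primeCond_of_center {G : Type} [Group G] (hc : Subgroup.center G = ⊥) : PrimeCond G := by
  intro P hP hprime
  have hpF : Fact (Nat.card P).Prime := ⟨hprime⟩
  have hcyc : IsCyclic P := isCyclic_of_prime_card rfl
  obtain ⟨⟨ρ, hρP⟩, hρ⟩ := hcyc.exists_generator
  have hgen : ∀ x ∈ P, ∃ k : ℤ, x = ρ ^ k := by
    intro x hx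
    obtain ⟨k, hk⟩ := Subgroup.mem_zpowers_iff.mp (hρ ⟨x, hx⟩)
    exact ⟨k, by simpa using (congrArg Subtype.val hk).symm⟩
  refine ⟨Subgroup.centralizer (P : Set G), ?_, ?_, ?_⟩
  · intro h
    have h1 : P ≤ Subgroup.center G := by
      intro x hx
      rw [Subgroup.mem_center_iff]
      intro g
      have h2 : g ∈ Subgroup.centralizer (P : Set G) := by rw [h]; exact Subgroup.mem_top g
      exact (Subgroup.mem_centralizer_iff.mp h2 x hx).symm
    rw [hc, le_bot_iff] at h1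
    rw [h1, Subgroup.card_bot] at hprime
    exact Nat.not_prime_one hprime
  · rw [commutator_def, Subgroup.commutator_le]
    intro g _ h _
    rw [Subgroup.mem_centralizer_iff]
    -- it is enough to commute with `ρ`
    have hg1 := hgen _ (hP.conj_mem ρ hρP g)
    have hh1 := hgen _ (hP.conj_mem ρ hρP h)
    obtain ⟨a, ha⟩ := hg1
    obtain ⟨b, hb⟩ := hh1
    have hga : ∀ k : ℤ, g * ρ ^ k * g⁻¹ = ρ ^ (a * k) := by
      intro k
      rw [← conj_zpow, ha, zpow_mul]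
    have hhb : ∀ k : ℤ, h * ρ ^ k * h⁻¹ = ρ ^ (b * k) := by
      intro k
      rw [← conj_zpow, hb, zpow_mul]
    have hcomm : ∀ k : ℤ, (g * h) * ρ ^ k * (g * h)⁻¹ = (h * g) * ρ ^ k * (h * g)⁻¹ := by
      intro k
      have e1 : (g * h) * ρ ^ k * (g * h)⁻¹ = g * (h * ρ ^ k * h⁻¹) * g⁻¹ := by group
      have e2 : (h * g) * ρ ^ k * (h * g)⁻¹ = h * (g * ρ ^ k * g⁻¹) * h⁻¹ := by group
      rw [e1, e2, hga, hhb, hga, hhb]
      congr 1
      ring
    intro x hx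
    obtain ⟨k, rfl⟩ := hgen x hx
    -- conjugate by `(h g)⁻¹`
    have h3 := hgen _ (hP.conj_mem _ hx (h * g)⁻¹)
    obtain ⟨j, hj⟩ := h3
    have h4 : ρ ^ k = (h * g) * ρ ^ j * (h * g)⁻¹ := by
      rw [← hj]
      group
    have h5 := hcomm j
    rw [← h4] at h5
    have h6 : ρ ^ j = (g * h)⁻¹ * ρ ^ k * (g * h) := by rw [← h5]; group
    rw [commutatorElement_def]
    have h7 : (h * g)⁻¹ * ρ ^ k * (h * g) = (g * h)⁻¹ * ρ ^ k * (g * h) := by
      rw [← h6, h4]; group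
    calc ρ ^ k * (g * h * g⁻¹ * h⁻¹) = (h * g) * ((h * g)⁻¹ * ρ ^ k * (h * g)) * (h * g)⁻¹ *
          (g * h * g⁻¹ * h⁻¹) := by group
      _ = (h * g) * ((g * h)⁻¹ * ρ ^ k * (g * h)) * (h * g)⁻¹ * (g * h * g⁻¹ * h⁻¹) := by rw [h7]
      _ = g * h * g⁻¹ * h⁻¹ * ρ ^ k := ?_
    -- use that `ρ ^ k` and its conjugates commute
    have h8 : Commute ((h * g) * (g * h)⁻¹) (ρ ^ k) := by
      have h9 : (h * g) * ((g * h)⁻¹ * ρ ^ k * (g * h)) * (h * g)⁻¹ = ρ ^ k := by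
        rw [← h7]; group
      have h10 : ((h * g) * (g * h)⁻¹) * ρ ^ k * ((h * g) * (g * h)⁻¹)⁻¹ = ρ ^ k := by
        rw [← h9]
        have e : ((h * g) * (g * h)⁻¹) * ((h * g) * ((g * h)⁻¹ * ρ ^ k * (g * h)) * (h * g)⁻¹) *
          ((h * g) * (g * h)⁻¹)⁻¹ = ((h * g) * (g * h)⁻¹) * ρ ^ k * ((h * g) * (g * h)⁻¹)⁻¹ := by
          rw [h9]
        rw [e]
        have e2 : ((h * g) * (g * h)⁻¹) * ρ ^ k * ((h * g) * (g * h)⁻¹)⁻¹ =
          (h * g) * ((g * h)⁻¹ * ρ ^ k * (g * h)) * (h * g)⁻¹ := by group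
        rw [e2]
      have h11 := mul_inv_eq_iff_eq_mul.mp h10
      exact h11
    have h9 := h8.inv_left
    have e1 : ((h * g) * (g * h)⁻¹)⁻¹ = g * h * g⁻¹ * h⁻¹ := by group
    rw [e1] at h9
    have h10 : (h * g) * ((g * h)⁻¹ * ρ ^ k * (g * h)) * (h * g)⁻¹ = ρ ^ k := by
      rw [← h7]; group
    rw [h10]
    exact h9.symm.eq
  · intro σ hσ
    rw [Subgroup.mem_centralizer_iff]
    intro x hx
    obtain ⟨k, rfl⟩ := Subgroup.mem_zpowers_iff.mp (hσ hx)
    exact ((Commute.refl σ).zpow_left k).eq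

theorem le_of_absorbs {L : Type} [Field L] [NumberField L] {R : Subgroup Gal(L/ℚ)}
    {σ : Gal(L/ℚ)} (h : Absorbs L R σ) : R ≤ Subgroup.zpowers σ := by
  intro ν hν
  obtain ⟨k, hk⟩ := h (AlgHom.id ℚ L) ν hν
  have h1 : ν = σ ^ k := by
    ext x
    exact congrArg (fun f : L →ₐ[ℚ] L => f x) hk
  rw [h1]
  exact Subgroup.npow_mem_zpowers σ k

theorem cond_of_primeCond {L : Type} [Field L] [NumberField L]
    (h : PrimeCond Gal(L/ℚ)) : Cond L L := by
  intro R hR hRb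
  by_cases hno : ∀ σ, ¬ Absorbs L R σ
  · exact Or.inl hno
  right
  push Not at hno
  obtain ⟨σ₀, hσ₀⟩ := hno
  have hle := le_of_absorbs hσ₀
  have hcyc : IsCyclic R := isCyclic_of_injective (Subgroup.inclusion hle)
    (Subgroup.inclusion_injective hle)
  obtain ⟨⟨ρ, hρR⟩, hρ⟩ := hcyc.exists_generator
  have hgen : ∀ x ∈ R, ∃ k : ℤ, x = ρ ^ k := by
    intro x hx
    obtain ⟨k, hk⟩ := Subgroup.mem_zpowers_iff.mp (hρ ⟨x, hx⟩)
    exact ⟨k, by simpa using (congrArg Subtype.val hk).symm⟩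
  have hρ1 : orderOf ρ ≠ 1 := by
    intro h1
    rw [orderOf_eq_one_iff] at h1
    apply hRb
    rw [Subgroup.eq_bot_iff_forall]
    intro x hx
    obtain ⟨k, rfl⟩ := hgen x hx
    rw [h1, one_zpow]
  obtain ⟨p, hp, k, hk⟩ := Nat.exists_prime_and_dvd hρ1
  have hord : 0 < orderOf ρ := orderOf_pos ρ
  have hk0 : k ≠ 0 := by
    rintro rfl
    rw [mul_zero] at hk
    omega
  set P : Subgroup Gal(L/ℚ) := Subgroup.zpowers (ρ ^ k) with hPdef
  have hPcard : Nat.card P = p := by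
    rw [hPdef, Nat.card_zpowers, orderOf_pow' ρ hk0, hk, Nat.gcd_mul_left_left,
      Nat.mul_div_cancel _ (Nat.pos_of_ne_zero hk0)]
  have hPn : P.Normal := by
    constructor
    intro x hx g
    obtain ⟨i, rfl⟩ := Subgroup.mem_zpowers_iff.mp hx
    obtain ⟨a, ha⟩ := hgen _ (hR.conj_mem ρ hρR g)
    rw [Subgroup.mem_zpowers_iff]
    refine ⟨a * i, ?_⟩
    rw [← conj_zpow, ← conj_pow, ha]
    rw [← zpow_natCast, ← zpow_natCast, ← zpow_mul, ← zpow_mul, ← zpow_mul]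
    congr 1
    ring
  have hPR : P ≤ R := by
    rw [hPdef, Subgroup.zpowers_le]
    exact R.pow_mem hρR k
  obtain ⟨H, hH, hcH, hσ⟩ := h P hPn (by rw [hPcard]; exact hp)
  refine ⟨H, hH, hcH, ?_, fun σ hab => hσ σ (hPR.trans (le_of_absorbs hab))⟩
  have h1 : σ₀ ∈ H := hσ σ₀ (hPR.trans hle)
  exact hle.trans (by rw [Subgroup.zpowers_le]; exact h1)

end Pool.Agent.V7H55.ZC
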