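import Pool.Agent.V7H55.GG.Cyc

/-! Small elements and the subgroups that fix their conjugates. -/

set_option autoImplicit false

namespace Pool.Agent.V7H55.ZC

open NumberField Finset IntermediateField Pool.Agent.V7H55.GG Pool.Agent.V7H55.LT
open scoped Classical

section
variable {M : Type} [Field M] [NumberField M]

theorem coe_smul' (g : Gal(M/ℚ)) (x : 𝓞 M) : ((g • x : 𝓞 M) : M) = g (x : M) := rfl

/-- a combination that is fixed only if all the terms are fixed -/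
theorem exists_combo {m : ℕ} (hm : Nat.card Gal(M/ℚ) = m) {k : ℕ} (hk : 0 < k) (f : Fin k → 𝓞 M)
    {B : ℝ} (hB : ∀ i (w : InfinitePlace M), w (f i : M) ≤ B) :
    ∃ y : 𝓞 M, (∀ ν : Gal(M/ℚ), ν (y : M) = y ↔ ∀ i, ν (f i : M) = f i) ∧
      ∀ w : InfinitePlace M, w (y : M) ≤ k * ((m * k : ℕ) : ℝ) ^ k * B := by
  have hcard : Fintype.card Gal(M/ℚ) = m := by rw [← Nat.card_eq_fintype_card, hm]
  have hm0 : 0 < m := by rw [← hm]; exact Nat.card_pos
  let F : Gal(M/ℚ) → Polynomial M := fun g =>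
    ∑ i : Fin k, Polynomial.C (g (f i : M) - f i) * Polynomial.X ^ (i : ℕ)
  have hcoef : ∀ (g : Gal(M/ℚ)) (i : Fin k), (F g).coeff i = g (f i : M) - f i := by
    intro g i
    simp only [F, Polynomial.finsetSum_coeff, Polynomial.coeff_C_mul, Polynomial.coeff_X_pow]
    rw [Finset.sum_eq_single i]
    · simp
    · intro j _ hj
      rw [if_neg (fun h => hj (Fin.ext h.symm)), mul_zero]
    · intro h
      exact absurd (Finset.mem_univ i) h
  let T : Finset Gal(M/ℚ) := Finset.univ.filter fun g => ¬ ∀ i, g (f i : M) = f i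
  have hF0 : ∀ g ∈ T, F g ≠ 0 := by
    intro g hg h0
    apply (Finset.mem_filter.mp hg).2
    intro i
    have h1 := hcoef g i
    rw [h0, Polynomial.coeff_zero] at h1
    exact (sub_eq_zero.mp h1.symm)
  have hdeg : ∀ g : Gal(M/ℚ), (F g).natDegree ≤ k := by
    intro g
    refine Polynomial.natDegree_sum_le_of_forall_le _ _ fun i _ => ?_
    refine (Polynomial.natDegree_C_mul_X_pow_le _ _).trans i.2.le
  have hT : T.card < m := by
    rw [← hcard, ← Finset.card_univ]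
    refine Finset.card_lt_card (Finset.ssubset_univ_iff.mpr ?_)
    intro h
    have h1 : (1 : Gal(M/ℚ)) ∈ T := by rw [h]; exact Finset.mem_univ _
    exact (Finset.mem_filter.mp h1).2 fun i => rfl
  let R : Polynomial M := ∏ g ∈ T, F g
  have hR0 : R ≠ 0 := Finset.prod_ne_zero_iff.mpr fun g hg => hF0 g hg
  have hRdeg : R.natDegree < m * k := by
    calc R.natDegree ≤ ∑ g ∈ T, (F g).natDegree := Polynomial.natDegree_prod_le _ _
      _ ≤ ∑ g ∈ T, k := Finset.sum_le_sum fun g _ => hdeg g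
      _ = T.card * k := by rw [Finset.sum_const, smul_eq_mul]
      _ < m * k := Nat.mul_lt_mul_of_pos_right hT hk
  -- a value that is not a root
  obtain ⟨t, htlt, ht⟩ : ∃ t : ℕ, t < m * k ∧ R.eval (t : M) ≠ 0 := by
    by_contra hcon
    push Not at hcon
    have hsub : (Finset.range (m * k)).image (fun t : ℕ => (t : M)) ⊆ R.roots.toFinset := by
      intro x hx
      obtain ⟨t, ht, rfl⟩ := Finset.mem_image.mp hx
      rw [Multiset.mem_toFinset, Polynomial.mem_roots hR0]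
      exact hcon t (Finset.mem_range.mp ht)
    have h1 := Finset.card_le_card hsub
    rw [Finset.card_image_of_injective _ Nat.cast_injective, Finset.card_range] at h1
    have h2 := Multiset.toFinset_card_le R.roots
    have h3 := Polynomial.card_roots' R
    omega
  let θ : 𝓞 M := ∑ i : Fin k, ((t ^ (i : ℕ) : ℕ) : 𝓞 M) * f i
  have hθ : (θ : M) = ∑ i : Fin k, (t : M) ^ (i : ℕ) * f i := by
    have h1 : (θ : M) = algebraMap (𝓞 M) M θ := rfl
    rw [h1]
    simp only [θ, map_sum, map_mul, map_natCast]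
    refine Finset.sum_congr rfl fun i _ => ?_
    push_cast
    rfl
  have hev : ∀ g : Gal(M/ℚ), (F g).eval (t : M) = g (θ : M) - θ := by
    intro g
    rw [hθ, map_sum, ← Finset.sum_sub_distrib]
    simp only [F, Polynomial.eval_finsetSum, Polynomial.eval_mul, Polynomial.eval_C,
      Polynomial.eval_pow, Polynomial.eval_X]
    refine Finset.sum_congr rfl fun i _ => ?_
    rw [map_mul, map_pow, map_natCast]
    ring
  refine ⟨θ, fun ν => ⟨fun h => ?_, fun h => ?_⟩, ?_⟩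
  · by_contra hne
    have h4 : R.eval (t : M) = ∏ g ∈ T, (F g).eval (t : M) := Polynomial.eval_prod _ _ _
    rw [h4] at ht
    have h5 := Finset.prod_ne_zero_iff.mp ht ν
      (Finset.mem_filter.mpr ⟨Finset.mem_univ _, hne⟩)
    rw [hev, h, sub_self] at h5
    exact h5 rfl
  · rw [hθ, map_sum]
    refine Finset.sum_congr rfl fun i _ => ?_
    rw [map_mul, map_pow, map_natCast, h i]
  · intro w
    rw [hθ]
    have hmn : (1 : ℝ) ≤ ((m * k : ℕ) : ℝ) := by
      exact_mod_cast Nat.mul_pos hm0 hk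
    have hB0 : 0 ≤ B := (apply_nonneg w _).trans (hB ⟨0, hk⟩ w)
    calc w (∑ i : Fin k, (t : M) ^ (i : ℕ) * f i)
        ≤ ∑ i : Fin k, w ((t : M) ^ (i : ℕ) * f i) := by
          have := AbsoluteValue.sum_le w.1 Finset.univ
            (fun i : Fin k => (t : M) ^ (i : ℕ) * f i)
          exact this
      _ ≤ ∑ i : Fin k, ((m * k : ℕ) : ℝ) ^ k * B := by
          refine Finset.sum_le_sum fun i _ => ?_
          rw [map_mul, map_pow, Pool.Agent.V7H55.LT.place_natCast]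
          have h2 : (t : ℝ) ^ (i : ℕ) ≤ ((m * k : ℕ) : ℝ) ^ k := by
            calc (t : ℝ) ^ (i : ℕ) ≤ ((m * k : ℕ) : ℝ) ^ (i : ℕ) := by
                  have : (t : ℝ) ≤ ((m * k : ℕ) : ℝ) := by exact_mod_cast htlt.le
                  gcongr
              _ ≤ ((m * k : ℕ) : ℝ) ^ k := pow_le_pow_right₀ hmn i.2.le
          exact mul_le_mul h2 (hB i w) (apply_nonneg w _) (by positivity)
      _ = k * ((m * k : ℕ) : ℝ) ^ k * B := by
          rw [Finset.sum_const, Finset.card_univ, Fintype.card_fin, nsmul_eq_mul]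
          ring

/-- the elements of the Galois group that fix all the conjugates of `θ` -/
def fixN (θ : 𝓞 M) : Subgroup Gal(M/ℚ) where
  carrier := {ν | ∀ g : Gal(M/ℚ), ν (g (θ : M)) = g (θ : M)}
  mul_mem' := fun {a b} ha hb g => by
    change a (b (g (θ : M))) = g (θ : M)
    rw [hb g, ha g]
  one_mem' := fun g => rfl
  inv_mem' := fun {a} ha g => by
    have h1 := ha g
    change a⁻¹ (g (θ : M)) = g (θ : M)
    conv_lhs => rw [← h1]
    exact a.symm_apply_apply _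

theorem mem_fixN {θ : 𝓞 M} {ν : Gal(M/ℚ)} :
    ν ∈ fixN θ ↔ ∀ g : Gal(M/ℚ), ν (g (θ : M)) = g (θ : M) := Iff.rfl

instance fixN_normal (θ : 𝓞 M) : (fixN θ).Normal := by
  constructor
  intro a ha g h
  change g (a (g⁻¹ (h (θ : M)))) = h (θ : M)
  have h1 : a (g⁻¹ (h (θ : M))) = g⁻¹ (h (θ : M)) := ha (g⁻¹ * h)
  rw [h1]
  exact g.apply_symm_apply _

/-- the subgroups that come from small elements -/
def Sm (B : ℝ) (N : Subgroup Gal(M/ℚ)) : Prop :=
  ∃ θ : 𝓞 M, (∀ w : InfinitePlace M, w (θ : M) ≤ B) ∧ fixN θ = N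

theorem Sm.normal {B : ℝ} {N : Subgroup Gal(M/ℚ)} (h : Sm B N) : N.Normal := by
  obtain ⟨θ, -, rfl⟩ := h
  infer_instance

theorem Sm.mono {B B' : ℝ} (hB : B ≤ B') {N : Subgroup Gal(M/ℚ)} (h : Sm B N) : Sm B' N := by
  obtain ⟨θ, h1, h2⟩ := h
  exact ⟨θ, fun w => (h1 w).trans hB, h2⟩

theorem conj_le {θ : 𝓞 M} {B : ℝ} (h : ∀ w : InfinitePlace M, w (θ : M) ≤ B) (g : Gal(M/ℚ))
    (w : InfinitePlace M) : w (g (θ : M)) ≤ B := by
  have h2 := h (w.comap (g : M →+* M))
  rw [InfinitePlace.comap_apply] at h2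
  exact h2

theorem sm_inf {m : ℕ} (hm : Nat.card Gal(M/ℚ) = m) {B : ℝ} {N₁ N₂ : Subgroup Gal(M/ℚ)}
    (h₁ : Sm B N₁) (h₂ : Sm B N₂) : Sm (2 * ((m * 2 : ℕ) : ℝ) ^ 2 * B) (N₁ ⊓ N₂) := by
  obtain ⟨θ₁, h1, rfl⟩ := h₁
  obtain ⟨θ₂, h2, rfl⟩ := h₂
  obtain ⟨y, hy, hyB⟩ := exists_combo hm (k := 2) two_pos ![θ₁, θ₂] (B := B) (by
    intro i w
    fin_cases i
    · exact h1 w
    · exact h2 w)
  refine ⟨y, fun w => by simpa using hyB w, ?_⟩
  have hy' : ∀ ν : Gal(M/ℚ), ν (y : M) = y ↔ (ν (θ₁ : M) = θ₁ ∧ ν (θ₂ : M) = θ₂) := by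
    intro ν
    rw [hy]
    constructor
    · intro h
      exact ⟨h 0, h 1⟩
    · rintro ⟨h3, h4⟩ i
      fin_cases i
      · exact h3
      · exact h4
  have key : ∀ (ν g : Gal(M/ℚ)) (x : M), ν (g x) = g x ↔ (g⁻¹ * ν * g) x = x := by
    intro ν g x
    change _ ↔ g⁻¹ (ν (g x)) = x
    constructor
    · intro h
      rw [h]
      exact g.symm_apply_apply _
    · intro h
      have h5 := congrArg g h
      have h6 : g (g⁻¹ (ν (g x))) = ν (g x) := g.apply_symm_apply _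
      rw [h6] at h5
      exact h5
  ext ν
  rw [Subgroup.mem_inf, mem_fixN, mem_fixN, mem_fixN, ← forall_and]
  refine forall_congr' fun g => ?_
  rw [key, key, key, hy']

/-- a primitive element of the field fixed by the subgroup -/
theorem exists_prim {m : ℕ} (hm : Nat.card Gal(M/ℚ) = m) {B : ℝ} {R : Subgroup Gal(M/ℚ)}
    (h : Sm B R) : ∃ y : 𝓞 M, (∀ ν : Gal(M/ℚ), ν (y : M) = y ↔ ν ∈ R) ∧
      ∀ w : InfinitePlace M, w (y : M) ≤ m * ((m * m : ℕ) : ℝ) ^ m * B := by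
  obtain ⟨θ, h1, rfl⟩ := h
  have hcard : Fintype.card Gal(M/ℚ) = m := by rw [← Nat.card_eq_fintype_card, hm]
  have hm0 : 0 < m := by rw [← hm]; exact Nat.card_pos
  let e : Fin m ≃ Gal(M/ℚ) := (Fintype.equivFinOfCardEq hcard).symm
  obtain ⟨y, hy, hyB⟩ := exists_combo hm hm0 (fun i => e i • θ) (B := B) (by
    intro i w
    rw [coe_smul']
    exact conj_le h1 _ w)
  refine ⟨y, fun ν => ?_, hyB⟩
  rw [hy, mem_fixN]
  constructor
  · intro h2 g
    have h3 := h2 (e.symm g)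
    rw [coe_smul', Equiv.apply_symm_apply] at h3
    exact h3
  · intro h2 i
    rw [coe_smul']
    exact h2 _

/-- the trivial subgroup does not come from very small elements -/
theorem disc_of_bot [IsGalois ℚ M] {m : ℕ} (hm : Module.finrank ℚ M = m) {B : ℝ}
    (h : Sm B (⊥ : Subgroup Gal(M/ℚ))) :
    |(discr M : ℝ)| ≤ (2 * (m * ((m * m : ℕ) : ℝ) ^ m * B)) ^ (m * (m - 1)) := by
  have hm' : Nat.card Gal(M/ℚ) = m := by rw [IsGalois.card_aut_eq_finrank, hm]
  obtain ⟨y, hy, hyB⟩ := exists_prim hm' h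
  have htop : ℚ⟮(y : M)⟯ = ⊤ := by
    have hfix : (ℚ⟮(y : M)⟯).fixingSubgroup = ⊥ := by
      rw [Subgroup.eq_bot_iff_forall]
      intro g hg
      rw [IntermediateField.mem_fixingSubgroup_iff] at hg
      exact Subgroup.mem_bot.mp ((hy g).mp (hg _ (mem_adjoin_simple_self ℚ _)))
    have h1 := IsGalois.fixedField_fixingSubgroup ℚ⟮(y : M)⟯
    rw [hfix, IntermediateField.fixedField_bot] at h1
    exact h1.symm
  have h1 := Pool.Agent.V7H55.LT.disc_bound_ideal hm y htop ⊤ top_ne_bot 1 one_pos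
    Submodule.mem_top Submodule.mem_top hyB
  rw [Ideal.absNorm_top, Nat.cast_one, one_pow, one_pow, one_mul, one_pow, one_mul] at h1
  exact h1

/-- **A level at which nothing new appears.** -/
theorem exists_level {m : ℕ} (hm : Nat.card Gal(M/ℚ) = m) (b : ℕ → ℝ) (hb : ∀ i, 1 ≤ b i)
    {K : ℕ} (hK : 1 ≤ K) (hstep : ∀ i, 2 * ((m * 2 : ℕ) : ℝ) ^ 2 * b i ^ K ≤ b (i + 1)) :
    ∃ i ≤ Nat.log 2 m, ∃ R : Subgroup Gal(M/ℚ), Sm (b i) R ∧
      ∀ θ : 𝓞 M, (∀ w : InfinitePlace M, w (θ : M) ≤ b i ^ K) → R ≤ fixN θ := by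
  by_contra hcon
  push Not at hcon
  have key : ∀ i ≤ Nat.log 2 m + 1, ∃ R : Subgroup Gal(M/ℚ), Sm (b i) R ∧
      Nat.card R * 2 ^ i ≤ m := by
    intro i
    induction i with
    | zero =>
      intro _
      refine ⟨fixN 1, ⟨1, fun w => ?_, rfl⟩, ?_⟩
      · have : ((1 : 𝓞 M) : M) = 1 := rfl
        rw [this, map_one]
        exact hb 0
      · rw [pow_zero, mul_one, ← hm]
        exact Nat.le_of_dvd Nat.card_pos (Subgroup.card_subgroup_dvd_card _)
    | succ i ih =>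
      intro hi
      obtain ⟨R, hR, hRc⟩ := ih (by omega)
      obtain ⟨θ, hθ, hRθ⟩ := hcon i (by omega) R hR
      have h1 : Sm (b i ^ K) R := hR.mono (by
        calc b i = b i ^ 1 := (pow_one _).symm
          _ ≤ b i ^ K := pow_le_pow_right₀ (hb i) hK)
      have h2 : Sm (b i ^ K) (fixN θ) := ⟨θ, hθ, rfl⟩
      refine ⟨R ⊓ fixN θ, (sm_inf hm h1 h2).mono (hstep i), ?_⟩
      have h3 : Nat.card (R ⊓ fixN θ : Subgroup Gal(M/ℚ)) < Nat.card R := by
        by_contra hlt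
        push Not at hlt
        have h5 : R ⊓ fixN θ = R := Subgroup.eq_of_le_of_card_ge inf_le_left hlt
        exact hRθ (inf_eq_left.mp h5)
      have h4 : Nat.card (R ⊓ fixN θ : Subgroup Gal(M/ℚ)) ∣ Nat.card R :=
        Subgroup.card_dvd_of_le inf_le_left
      obtain ⟨c, hc⟩ := h4
      have hc2 : 2 ≤ c := by
        by_contra hc2
        have : c = 0 ∨ c = 1 := by omega
        rcases this with rfl | rfl
        · rw [mul_zero] at hc
          omega
        · omega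
      calc Nat.card (R ⊓ fixN θ : Subgroup Gal(M/ℚ)) * 2 ^ (i + 1) =
            (Nat.card (R ⊓ fixN θ : Subgroup Gal(M/ℚ)) * 2) * 2 ^ i := by ring
        _ ≤ (Nat.card (R ⊓ fixN θ : Subgroup Gal(M/ℚ)) * c) * 2 ^ i := by gcongr
        _ = Nat.card R * 2 ^ i := by rw [hc]
        _ ≤ m := hRc
  obtain ⟨R, -, hRc⟩ := key _ le_rfl
  have h1 : m < 2 ^ (Nat.log 2 m + 1) := Nat.lt_pow_succ_log_self (by norm_num) m
  have h2 : 0 < Nat.card R := Nat.card_pos
  nlinarith

end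

end Pool.Agent.V7H55.ZC
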