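import Mathlib

/-! Sums of periodic functions. -/

set_option autoImplicit false

namespace Pool.Agent.V7H55.ZC

open Finset

/-- sums of periodic functions -/
theorem per_sum {q : ℕ} (hq : 0 < q) {B : ℝ} (f : ℕ → ℝ) (hf : ∀ k, f (k + q) = f k)
    (hb : ∀ k, |f k| ≤ B) (y : ℕ) :
    |∑ k ∈ range y, f k - y * ((∑ k ∈ range q, f k) / q)| ≤ 2 * B * q := by
  have hB : 0 ≤ B := (abs_nonneg _).trans (hb 0)
  have hqr : (0 : ℝ) < q := by exact_mod_cast hq
  set S := ∑ k ∈ range q, f k with hS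
  have hSq : |S| ≤ q * B := by
    calc |S| ≤ ∑ k ∈ range q, |f k| := Finset.abs_sum_le_sum_abs _ _
      _ ≤ ∑ k ∈ range q, B := Finset.sum_le_sum fun k _ => hb k
      _ = q * B := by rw [Finset.sum_const, Finset.card_range, nsmul_eq_mul]
  induction y using Nat.strong_induction_on with
  | _ y ih =>
    rcases Nat.lt_or_ge y q with h | h
    · have hyq : (y : ℝ) ≤ q := by exact_mod_cast h.le
      have h1 : |∑ k ∈ range y, f k| ≤ y * B := by
        calc |∑ k ∈ range y, f k| ≤ ∑ k ∈ range y, |f k| := Finset.abs_sum_le_sum_abs _ _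
          _ ≤ ∑ k ∈ range y, B := Finset.sum_le_sum fun k _ => hb k
          _ = y * B := by rw [Finset.sum_const, Finset.card_range, nsmul_eq_mul]
      have h2 : |(y : ℝ) * (S / q)| ≤ y * B := by
        rw [abs_mul, abs_div, abs_of_pos hqr, Nat.abs_cast]
        have : |S| / q ≤ B := by rw [div_le_iff₀ hqr]; linarith
        gcongr
      calc |∑ k ∈ range y, f k - y * (S / q)| ≤ |∑ k ∈ range y, f k| + |(y : ℝ) * (S / q)| :=
            abs_sub _ _
        _ ≤ y * B + y * B := add_le_add h1 h2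
        _ ≤ q * B + q * B := by gcongr
        _ = 2 * B * q := by ring
    · obtain ⟨y', rfl⟩ : ∃ y', y = q + y' := ⟨y - q, by omega⟩
      have h1 := ih y' (by omega)
      rw [Finset.sum_range_add]
      have h2 : ∑ k ∈ range y', f (q + k) = ∑ k ∈ range y', f k :=
        Finset.sum_congr rfl fun k _ => by rw [add_comm, hf]
      rw [h2, ← hS]
      have h3 : S + ∑ k ∈ range y', f k - ((q + y' : ℕ) : ℝ) * (S / q) =
          ∑ k ∈ range y', f k - y' * (S / q) := by
        push_cast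
        field_simp
        ring
      rw [h3]
      exact h1

/-- the multiples of `d` below `x` -/
theorem filter_dvd_eq {d : ℕ} (hd : 0 < d) (x : ℕ) :
    (range x).filter (fun m => d ∣ m) = (range ((x + d - 1) / d)).image (fun k => d * k) := by
  ext m
  simp only [mem_filter, mem_range, mem_image]
  constructor
  · rintro ⟨hm, k, rfl⟩
    refine ⟨k, ?_, rfl⟩
    rw [Nat.lt_iff_add_one_le, Nat.le_div_iff_mul_le hd]
    have : (k + 1) * d = d * k + d := by ring
    omega
  · rintro ⟨k, hk, rfl⟩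
    refine ⟨?_, dvd_mul_right _ _⟩
    rw [Nat.lt_iff_add_one_le, Nat.le_div_iff_mul_le hd] at hk
    have : (k + 1) * d = d * k + d := by ring
    omega

theorem sum_filter_dvd {d : ℕ} (hd : 0 < d) (x : ℕ) (w : ℕ → ℝ) :
    ∑ m ∈ (range x).filter (fun m => d ∣ m), w m =
      ∑ k ∈ range ((x + d - 1) / d), w (d * k) := by
  rw [filter_dvd_eq hd, Finset.sum_image]
  intro a _ b _ h
  exact Nat.eq_of_mul_eq_mul_left hd h

theorem ceil_bounds {d : ℕ} (hd : 0 < d) (x : ℕ) :
    |(((x + d - 1) / d : ℕ) : ℝ) - (x : ℝ) / d| ≤ 1 := by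
  have hdr : (0 : ℝ) < d := by exact_mod_cast hd
  have h1 : ((x + d - 1) / d) * d ≤ x + d - 1 := Nat.div_mul_le_self _ _
  have h2 : x ≤ ((x + d - 1) / d) * d := by
    have := Nat.lt_div_mul_add (a := x + d - 1) hd
    omega
  have h1' : ((((x + d - 1) / d : ℕ) : ℝ)) * d ≤ x + d := by
    have : ((x + d - 1) / d) * d ≤ x + d := by omega
    exact_mod_cast this
  have h2' : (x : ℝ) ≤ ((((x + d - 1) / d : ℕ) : ℝ)) * d := by exact_mod_cast h2
  rw [abs_le]
  constructor
  · have : (x : ℝ) / d ≤ (((x + d - 1) / d : ℕ) : ℝ) := by rw [div_le_iff₀ hdr]; exact h2'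
    linarith
  · have : (((x + d - 1) / d : ℕ) : ℝ) ≤ ((x : ℝ) + d) / d := by rw [le_div_iff₀ hdr]; exact h1'
    have h3 : ((x : ℝ) + d) / d = x / d + 1 := by field_simp
    linarith

/-- a sum over residues -/
theorem sum_range_zmod {N : ℕ} [NeZero N] (g : ZMod N → ℂ) :
    ∑ k ∈ range N, g (k : ZMod N) = ∑ a : ZMod N, g a := by
  refine Finset.sum_nbij (fun k => (k : ZMod N)) (fun _ _ => Finset.mem_univ _) ?_ ?_
    (fun _ _ => rfl)
  · intro a ha b hb h
    have ha' : a < N := by simpa using ha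
    have hb' : b < N := by simpa using hb
    have h1 := (ZMod.natCast_eq_natCast_iff' a b N).mp h
    rwa [Nat.mod_eq_of_lt ha', Nat.mod_eq_of_lt hb'] at h1
  · intro a _
    refine ⟨a.val, ?_, ZMod.natCast_zmod_val a⟩
    simpa using ZMod.val_lt a

end Pool.Agent.V7H55.ZC
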