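import Pool.Agent.TH831.OT.Gal

/-!
# The cyclotomic character of order `p` and conductor `p ^ 2`, with its values at the primes
-/

set_option autoImplicit false

namespace Pool.Agent.V7H55.ZC

open NumberField Pool.Agent.W569.FM Pool.Agent.W134.FM Pool.Agent.TH831.OT

section
variable (p : ℕ) [hp : Fact p.Prime]

theorem exists_psi2 : ∃ (ψ : GF ℚ →* Multiplicative (ZMod p)) (w : OO ℚ),
    IsPrimitiveRoot w (p ^ 2) ∧ IsOpen (ψ.ker : Set (GF ℚ)) ∧
    (∀ P : Ideal (OO ℚ), P.IsMaximal → (p : OO ℚ) ∉ P → ∀ τ : GF ℚ, InInertia P τ → ψ τ = 1) ∧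
    (∃ g, ψ g ≠ 1) ∧
    (∀ q : ℕ, q.Prime → q ≠ p → ∀ u : (ZMod (p ^ 2))ˣ, (u : ZMod (p ^ 2)) = (q : ZMod (p ^ 2)) →
      ∀ P : Ideal (OO ℚ), P.IsMaximal →
      (q : OO ℚ) ∈ P → ∀ σ : GF ℚ, FrobAt q P σ → ψ σ = theta p u) ∧
    ∀ τ : GF ℚ, ψ τ = 1 → (τ ^ (p - 1)) • w = w := by
  have hl0 : p ^ 2 ≠ 0 := pow_ne_zero 2 hp.out.ne_zero
  have : NeZero (p ^ 2) := ⟨hl0⟩
  obtain ⟨ζ, hζ⟩ := HasEnoughRootsOfUnity.exists_primitiveRoot (AlgebraicClosure ℚ) (p ^ 2)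
  have hζi : IsIntegral ℤ ζ :=
    IsIntegral.of_pow (Nat.pos_of_ne_zero hl0) (by rw [hζ.pow_eq_one]; exact isIntegral_one)
  let z : OO ℚ := ⟨ζ, hζi⟩
  have hz : (z : AlgebraicClosure ℚ) = ζ := rfl
  have hzp : ∀ a : ℕ, ((z ^ a : OO ℚ) : AlgebraicClosure ℚ) = ζ ^ a := fun a =>
    map_pow (algebraMap (OO ℚ) (AlgebraicClosure ℚ)) z _
  have hzprim : IsPrimitiveRoot z (p ^ 2) := by
    have h1 : IsPrimitiveRoot (algebraMap (OO ℚ) (AlgebraicClosure ℚ) z) (p ^ 2) := hζ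
    exact h1.of_map_of_injective RingOfIntegers.coe_injective
  have hzl : z ^ (p ^ 2) = 1 := hzprim.pow_eq_one
  set χ : GF ℚ →* (ZMod (p ^ 2))ˣ := hζ.autToPow ℚ with hχ
  have hspec : ∀ g : GF ℚ, ζ ^ ((χ g : (ZMod (p ^ 2))ˣ) : ZMod (p ^ 2)).val = g ζ :=
    fun g => hζ.autToPow_spec ℚ g
  have hact : ∀ g : GF ℚ, g • z = z ^ ((χ g : (ZMod (p ^ 2))ˣ) : ZMod (p ^ 2)).val := by
    intro g
    apply RingOfIntegers.ext
    rw [hzp, hspec]
    rfl
  have hval : ∀ (g : GF ℚ) (a : ℕ), g • z = z ^ a →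
      ((χ g : (ZMod (p ^ 2))ˣ) : ZMod (p ^ 2)) = a := by
    intro g a h
    rw [hact] at h
    have h1 := congrArg (fun y : OO ℚ => (y : AlgebraicClosure ℚ)) h
    simp only [hzp] at h1
    have h2 : ((χ g : (ZMod (p ^ 2))ˣ) : ZMod (p ^ 2)).val ≡ a [MOD (p ^ 2)] := by
      rw [pow_eq_pow_mod a hζ.pow_eq_one] at h1
      have h3 := hζ.pow_inj (ZMod.val_lt _) (Nat.mod_lt _ (Nat.pos_of_ne_zero hl0)) h1
      rw [h3]
      exact Nat.mod_modEq _ _
    have h3 := (ZMod.natCast_eq_natCast_iff _ _ _).2 h2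
    rwa [ZMod.natCast_zmod_val] at h3
  have hnotmem : ∀ P : Ideal (OO ℚ), P.IsMaximal → (p : OO ℚ) ∉ P →
      ((p ^ 2 : ℕ) : OO ℚ) ∉ P := by
    intro P hP hpP h
    rw [Nat.cast_pow] at h
    exact hpP (hP.isPrime.mem_of_pow_mem 2 h)
  refine ⟨(theta p).comp χ, z, hzprim, ?_, ?_, ?_, ?_, ?_⟩
  · have h1 : IsOpen (MulAction.stabilizer (GF ℚ) ζ : Set (GF ℚ)) := isOpen_stab ζ
    refine Subgroup.isOpen_mono (H₁ := MulAction.stabilizer (GF ℚ) ζ) ?_ h1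
    intro g hg
    rw [MulAction.mem_stabilizer_iff] at hg
    have h2 : g • z = z ^ 1 := by
      apply RingOfIntegers.ext
      rw [pow_one]
      exact hg
    have h3 := hval g 1 h2
    rw [MonoidHom.mem_ker]
    show theta p (χ g) = 1
    have h4 : χ g = 1 := Units.ext (by rw [h3]; simp)
    rw [h4, map_one]
  · intro P hP hlP τ hτ
    have h1 := hτ z
    have h2 : τ • z = z := by
      refine root_eq hP.ne_top (hnotmem P hP hlP) ?_ hzl h1 hl0
      rw [← smul_pow', hzl, smul_one]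
    have h3 := hval τ 1 (by rw [pow_one, h2])
    show theta p (χ τ) = 1
    have h4 : χ τ = 1 := Units.ext (by rw [h3]; simp)
    rw [h4, map_one]
  · have hcop : Nat.Coprime (1 + p * 1) (p ^ 2) := by
      apply Nat.Coprime.pow_right
      simp
    have h1 : IsPrimitiveRoot (ζ ^ (1 + p * 1)) (p ^ 2) := hζ.pow_of_coprime _ hcop
    obtain ⟨g, hg⟩ := exists_aut (F := ℚ) (minpoly_root (Nat.pos_of_ne_zero hl0) h1 hζ)
    refine ⟨g, ?_⟩
    have h3 : g • z = z ^ (1 + p * 1) := by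
      apply RingOfIntegers.ext
      rw [hzp]
      exact hg
    have h4 := hval g _ h3
    show theta p (χ g) ≠ 1
    rw [theta_one_add p _ 1 h4]
    intro h5
    have h6 := congrArg Multiplicative.toAdd h5
    rw [toAdd_ofAdd, toAdd_one, Nat.cast_one] at h6
    exact one_ne_zero h6
  · intro q hq hqp u hqu P hP hqP σ hσ
    have hpP : (p : OO ℚ) ∉ P := fun h => hqp (char_unique hP hq hp.out hqP h)
    have h1 := hσ z
    have h2 : σ • z = z ^ q := by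
      refine root_eq hP.ne_top (hnotmem P hP hpP) ?_ ?_ h1 hl0
      · rw [← smul_pow', hzl, smul_one]
      · rw [← pow_mul, mul_comm, pow_mul, hzl, one_pow]
    have h3 := hval σ q h2
    rw [← hqu] at h3
    show theta p (χ σ) = theta p u
    rw [Units.ext h3]
  · intro τ hτ
    have h1 : χ τ ^ (p - 1) = 1 := theta_eq_one p _ hτ
    have h2 : χ (τ ^ (p - 1)) = 1 := by rw [map_pow, h1]
    have : Fact (1 < p ^ 2) := ⟨Nat.one_lt_pow two_ne_zero hp.out.one_lt⟩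
    rw [hact, h2, Units.val_one, ZMod.val_one, pow_one]

end

end Pool.Agent.V7H55.ZC
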