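import Pool.Agent.TH423.SH.FLLP
import Pool.Agent.V7H55.ZC.Per

/-! Many small primes with `χ(p) ≠ 1`. -/

set_option autoImplicit false

namespace Pool.Agent.V7H55.ZC

open Finset Pool.Agent.Helper112.LP
open scoped Classical

/-- the product of the primes up to `z0` -/
def Wz (z0 : ℕ) : ℕ := ∏ p ∈ (range (z0 + 1)).filter Nat.Prime, p

theorem Wz_pos (z0 : ℕ) : 0 < Wz z0 :=
  Finset.prod_pos fun _ hp => (Finset.mem_filter.mp hp).2.pos

theorem dvd_Wz {z0 p : ℕ} (hp : p.Prime) (hpz : p ≤ z0) : p ∣ Wz z0 :=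
  Finset.dvd_prod_of_mem _ (Finset.mem_filter.mpr ⟨Finset.mem_range.mpr (by omega), hp⟩)

theorem dvd_Wz_iff {z0 p : ℕ} (hp : p.Prime) : p ∣ Wz z0 ↔ p ≤ z0 := by
  constructor
  · intro h
    obtain ⟨q, hq, hpq⟩ := (Prime.dvd_finsetProd_iff hp.prime _).mp h
    obtain ⟨h1, h2⟩ := Finset.mem_filter.mp hq
    have := (Nat.prime_dvd_prime_iff_eq hp h2).mp hpq
    have := Finset.mem_range.mp h1
    omega
  · exact dvd_Wz hp

/-- a completely multiplicative function that is `1` at the prime divisors of `n` -/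
theorem chi_eq_one {N : ℕ} (χ : DirichletCharacter ℂ N) (n : ℕ) (hn : n ≠ 0)
    (h : ∀ q : ℕ, q.Prime → q ∣ n → χ (q : ZMod N) = 1) : χ (n : ZMod N) = 1 := by
  induction n using Nat.recOnMul with
  | zero => exact absurd rfl hn
  | one => simp
  | prime p hp => exact h p hp dvd_rfl
  | mul a b ha hb =>
    rw [mul_ne_zero_iff] at hn
    push_cast
    rw [map_mul, ha hn.1 fun q hq hd => h q hq (hd.mul_right _),
      hb hn.2 fun q hq hd => h q hq (hd.mul_left _), one_mul]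

/-- the weight `1` on the integers prime to `W` -/
noncomputable def w1 (W n : ℕ) : ℝ := if n.Coprime W then 1 else 0

theorem w1_nonneg (W n : ℕ) : 0 ≤ w1 W n := by unfold w1; split_ifs <;> norm_num

theorem w1_le (W n : ℕ) : |w1 W n| ≤ 1 := by unfold w1; split_ifs <;> norm_num

theorem w1_per {W : ℕ} (k : ℕ) : w1 W (k + W) = w1 W k := by
  unfold w1
  simp

theorem w1_mul {W d : ℕ} (hd : d.Coprime W) (k : ℕ) : w1 W (d * k) = w1 W k := by
  have h : (d * k).Coprime W ↔ k.Coprime W := by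
    rw [Nat.coprime_mul_iff_left]
    exact ⟨fun h => h.2, fun h => ⟨hd, h⟩⟩
  unfold w1
  simp only [h]

/-- the mean of `w1` -/
noncomputable def mean (W : ℕ) : ℝ := (∑ k ∈ range W, w1 W k) / W

theorem mean_pos {W : ℕ} (hW : 1 < W) : 1 / (W : ℝ) ≤ mean W := by
  unfold mean
  have hWr : (0 : ℝ) < W := by exact_mod_cast (by omega : 0 < W)
  have h1 : w1 W 1 ≤ ∑ k ∈ range W, w1 W k :=
    Finset.single_le_sum (fun k _ => w1_nonneg W k) (Finset.mem_range.mpr hW)
  have h2 : w1 W 1 = 1 := by unfold w1; simp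
  rw [h2] at h1
  gcongr

theorem mean_le_one {W : ℕ} (hW : 0 < W) : mean W ≤ 1 := by
  unfold mean
  have hWr : (0 : ℝ) < W := by exact_mod_cast hW
  rw [div_le_one hWr]
  calc ∑ k ∈ range W, w1 W k ≤ ∑ k ∈ range W, 1 :=
        Finset.sum_le_sum fun k _ => (abs_le.mp (w1_le W k)).2
    _ = W := by simp

theorem re_chi_le {N : ℕ} (χ : DirichletCharacter ℂ N) (a : ZMod N) : |(χ a).re| ≤ 1 :=
  (Complex.abs_re_le_norm _).trans (DirichletCharacter.norm_le_one χ a)

/-- the sum of the weight `1` over the multiples of `d` -/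
theorem sum_w1 {W : ℕ} (hW : 0 < W) {d : ℕ} (hd : 0 < d) (hdW : d.Coprime W) (x : ℕ) :
    |∑ m ∈ (range x).filter (fun m => d ∣ m), w1 W m - (x * mean W) * (1 / d)| ≤ 2 * W + 1 := by
  rw [sum_filter_dvd hd]
  simp_rw [w1_mul hdW]
  set y := (x + d - 1) / d with hy
  have h1 := per_sum hW (w1 W) (w1_per) (w1_le W) y
  rw [← mean] at h1
  have h2 := ceil_bounds hd x
  rw [← hy] at h2
  have h3 : |(y : ℝ) * mean W - (x * mean W) * (1 / d)| ≤ 1 := by
    have e : (y : ℝ) * mean W - (x * mean W) * (1 / d) = mean W * ((y : ℝ) - x / d) := by ring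
    rw [e, abs_mul]
    have h4 : |mean W| ≤ 1 := by
      rw [abs_of_nonneg]
      · exact mean_le_one hW
      · unfold mean
        exact div_nonneg (Finset.sum_nonneg fun k _ => w1_nonneg W k) (Nat.cast_nonneg _)
    calc |mean W| * |(y : ℝ) - x / d| ≤ 1 * 1 := by gcongr
      _ = 1 := one_mul 1
  have h5 := abs_add_le (∑ k ∈ range y, w1 W k - y * mean W)
    ((y : ℝ) * mean W - (x * mean W) * (1 / d))
  have e : ∑ k ∈ range y, w1 W k - y * mean W + (y * mean W - x * mean W * (1 / d)) =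
    ∑ k ∈ range y, w1 W k - x * mean W * (1 / d) := by ring
  rw [e] at h5
  linarith

/-- the sum of the character over the multiples of `d` -/
theorem sum_chi {N : ℕ} (hN : 0 < N) (χ : DirichletCharacter ℂ N) (hχ : χ ≠ 1) {d : ℕ} (hd : 0 < d)
    (x : ℕ) :
    |∑ m ∈ (range x).filter (fun m => d ∣ m), (χ (m : ZMod N)).re| ≤ 2 * N := by
  have : NeZero N := ⟨hN.ne'⟩
  rw [sum_filter_dvd hd]
  have h1 := per_sum hN (fun k => (χ ((d * k : ℕ) : ZMod N)).re) (fun k => by
    congr 2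
    push_cast
    rw [ZMod.natCast_self, add_zero]) (fun k => re_chi_le χ _) ((x + d - 1) / d)
  have h2 : ∑ k ∈ range N, (χ ((d * k : ℕ) : ZMod N)).re = 0 := by
    rw [← Complex.re_sum]
    have h3 : ∑ k ∈ range N, χ ((d * k : ℕ) : ZMod N) =
        χ (d : ZMod N) * ∑ a : ZMod N, χ a := by
      rw [← sum_range_zmod, Finset.mul_sum]
      refine Finset.sum_congr rfl fun k _ => ?_
      push_cast
      rw [map_mul]
    rw [h3, MulChar.sum_eq_zero_of_ne_one hχ, mul_zero, Complex.zero_re]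
  rw [h2, zero_div, mul_zero, sub_zero] at h1
  linarith

theorem Gj_disjoint {i j : ℕ} (hi : 1 ≤ i) (hij : i < j) : Disjoint (Gj i) (Gj j) := by
  rw [Finset.disjoint_left]
  intro a ha hb
  obtain ⟨h1, -⟩ := Finset.mem_filter.mp ha
  obtain ⟨h2, -⟩ := Finset.mem_filter.mp hb
  have h3 := (Finset.mem_Ico.mp h1).2
  have h4 := (Finset.mem_Ico.mp h2).1
  have h5 : 2 ^ 2 ^ i ≤ 2 ^ 2 ^ (j - 1) :=
    Nat.pow_le_pow_right (by norm_num) (Nat.pow_le_pow_right (by norm_num) (by omega))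
  omega

/-- a lower bound for the product over primes -/
theorem prod_lower : ∃ K : ℝ, 0 < K ∧ ∀ (J : ℕ) (P : Finset ℕ),
    (∀ p ∈ P, p.Prime ∧ p ≤ 2 ^ 2 ^ J) →
    Real.exp (-(K * (J + 1))) ≤ ∏ p ∈ P, (1 - 1 / (p : ℝ)) := by
  obtain ⟨C, hC0, hC⟩ := mertens_group
  have hlog2 : 0 < Real.log 2 := Real.log_pos (by norm_num)
  refine ⟨2 * (Real.log 2 + C), by positivity, ?_⟩
  intro J P hP
  have hsub : P ⊆ (Finset.Icc 1 (J + 1)).biUnion Gj := by
    intro p hp
    obtain ⟨hpp, hpJ⟩ := hP p hp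
    have hex : ∃ j, p < 2 ^ 2 ^ j := by
      refine ⟨J + 1, hpJ.trans_lt ?_⟩
      exact Nat.pow_lt_pow_right (by norm_num) (Nat.pow_lt_pow_right (by norm_num) (by omega))
    have h1 := Nat.find_spec hex
    have h0 : Nat.find hex ≠ 0 := by
      intro h0
      rw [h0] at h1
      have := hpp.two_le
      norm_num at h1
      omega
    have hle : Nat.find hex ≤ J + 1 := by
      refine Nat.find_min' hex (hpJ.trans_lt ?_)
      exact Nat.pow_lt_pow_right (by norm_num) (Nat.pow_lt_pow_right (by norm_num) (by omega))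
    have h2 := Nat.find_min hex (m := Nat.find hex - 1) (by omega)
    rw [Finset.mem_biUnion]
    exact ⟨Nat.find hex, Finset.mem_Icc.mpr ⟨by omega, hle⟩,
      Finset.mem_filter.mpr ⟨Finset.mem_Ico.mpr ⟨by omega, h1⟩, hpp⟩⟩
  have hsum : ∑ p ∈ P, (1 : ℝ) / p ≤ (J + 1) * (Real.log 2 + C) := by
    calc ∑ p ∈ P, (1 : ℝ) / p ≤ ∑ p ∈ (Finset.Icc 1 (J + 1)).biUnion Gj, (1 : ℝ) / p :=
          Finset.sum_le_sum_of_subset_of_nonneg hsub fun p _ _ => by positivity
      _ = ∑ j ∈ Finset.Icc 1 (J + 1), ∑ p ∈ Gj j, (1 : ℝ) / p := by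
          refine Finset.sum_biUnion ?_
          intro i hi j hj hij
          have hi' := Finset.mem_Icc.mp hi
          have hj' := Finset.mem_Icc.mp hj
          rcases lt_or_gt_of_ne hij with h | h
          · exact Gj_disjoint hi'.1 h
          · exact (Gj_disjoint hj'.1 h).symm
      _ ≤ ∑ j ∈ Finset.Icc 1 (J + 1), (Real.log 2 + C) := by
          refine Finset.sum_le_sum fun j hj => ?_
          have h1 := (abs_le.mp (hC j (Finset.mem_Icc.mp hj).1)).2
          have h2 : C / 2 ^ j ≤ C := div_le_self hC0.le (one_le_pow₀ (by norm_num))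
          linarith
      _ = (J + 1) * (Real.log 2 + C) := by
          rw [Finset.sum_const, Nat.card_Icc, nsmul_eq_mul]
          push_cast
          ring
  have hterm : ∀ p ∈ P, Real.exp (-(2 * (1 / (p : ℝ)))) ≤ 1 - 1 / (p : ℝ) := by
    intro p hp
    have hp2 : (2 : ℝ) ≤ p := by exact_mod_cast (hP p hp).1.two_le
    set t : ℝ := 1 / (p : ℝ) with ht
    have ht0 : 0 < t := by positivity
    have ht1 : t ≤ 1 / 2 := by
      rw [ht]; exact one_div_le_one_div_of_le (by norm_num) hp2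
    rw [Real.exp_neg, inv_le_comm₀ (Real.exp_pos _) (by linarith)]
    have h1 : 1 + 2 * t ≤ Real.exp (2 * t) := by linarith [Real.add_one_le_exp (2 * t)]
    refine le_trans ?_ h1
    rw [inv_le_iff_one_le_mul₀ (by linarith)]
    nlinarith
  calc Real.exp (-(2 * (Real.log 2 + C) * (J + 1))) ≤ Real.exp (-(2 * ∑ p ∈ P, (1 : ℝ) / p)) := by
        apply Real.exp_le_exp.mpr
        nlinarith
    _ = ∏ p ∈ P, Real.exp (-(2 * (1 / (p : ℝ)))) := by
        rw [← Real.exp_sum]
        congr 1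
        rw [Finset.mul_sum, ← Finset.sum_neg_distrib]
    _ ≤ ∏ p ∈ P, (1 - 1 / (p : ℝ)) := Finset.prod_le_prod (fun p _ => (Real.exp_pos _).le) hterm

end Pool.Agent.V7H55.ZC
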