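import Pool.Agent.V7H55.ZC.Sieve

/-! Many small primes with `χ(p) ≠ 1`: the sieve. -/

set_option autoImplicit false

namespace Pool.Agent.V7H55.ZC

open Finset Pool.Agent.Helper112.LP Pool.Agent.TH423.SH
open scoped Classical

theorem lin_lt_exp (c : ℝ) : ∃ J1 : ℕ, ∀ J ≥ J1, c * ((J : ℝ) + 3) ≤ 2 ^ (J - 1) := by
  have h1 := tendsto_pow_const_div_const_pow_of_one_lt 1 (show (1 : ℝ) < 2 by norm_num)
  have h2 := tendsto_pow_const_div_const_pow_of_one_lt 0 (show (1 : ℝ) < 2 by norm_num)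
  have h3 := (h1.const_mul (2 * c)).add (h2.const_mul (6 * c))
  rw [mul_zero, mul_zero, add_zero] at h3
  have h4 := h3.eventually_lt_const (show (0 : ℝ) < 1 by norm_num)
  obtain ⟨J1, hJ1⟩ := Filter.eventually_atTop.mp h4
  refine ⟨J1 + 1, fun J hJ => ?_⟩
  have h5 := hJ1 J (by omega)
  have h6 : (2 : ℝ) ^ J = 2 * 2 ^ (J - 1) := by
    rw [← pow_succ']
    congr 1
    omega
  have h7 : (0 : ℝ) < 2 ^ (J - 1) := by positivity
  rw [pow_one, pow_zero, h6] at h5
  have h8 : 2 * c * ((J : ℝ) / (2 * 2 ^ (J - 1))) + 6 * c * (1 / (2 * 2 ^ (J - 1))) =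
      c * ((J : ℝ) + 3) / 2 ^ (J - 1) := by
    field_simp
    ring
  rw [h8, div_lt_one h7] at h5
  exact h5.le

theorem hits_iff {T : Finset ℕ} (hT : ∀ p ∈ T, p.Prime) (m : ℕ) :
    (∀ p ∈ T, p ∣ m) ↔ ∏ p ∈ T, p ∣ m := by
  constructor
  · intro h
    exact Finset.prod_primes_dvd m (fun p hp => (hT p hp).prime) h
  · intro h p hp
    exact (Finset.dvd_prod_of_mem _ hp).trans h

theorem coprime_prod {T : Finset ℕ} {z0 : ℕ} (hT : ∀ p ∈ T, p.Prime ∧ z0 < p) :
    (∏ p ∈ T, p).Coprime (Wz z0) := by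
  refine Nat.Coprime.prod_left fun p hp => ?_
  rw [Nat.Prime.coprime_iff_not_dvd (hT p hp).1, dvd_Wz_iff (hT p hp).1]
  exact not_le.mpr (hT p hp).2

theorem prod_inj {P : Finset ℕ} (hP : ∀ p ∈ P, p.Prime) {T T' : Finset ℕ} (hT : T ⊆ P)
    (hT' : T' ⊆ P) (h : ∏ p ∈ T, p = ∏ p ∈ T', p) : T = T' := by
  have key : ∀ U ⊆ P, U = (∏ p ∈ U, p).primeFactors := by
    intro U hU
    exact (Nat.primeFactors_prod fun p hp => hP p (hU hp)).symm
  rw [key T hT, key T' hT', h]

theorem card_small {P : Finset ℕ} (hP : ∀ p ∈ P, p.Prime) (Y : ℕ) :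
    (P.powerset.filter (fun T : Finset ℕ => ∏ p ∈ T, p ≤ Y)).card ≤ Y := by
  have h1 : (P.powerset.filter (fun T : Finset ℕ => ∏ p ∈ T, p ≤ Y)).card ≤
      (Finset.Icc 1 Y).card := by
    refine Finset.card_le_card_of_injOn (fun T => ∏ p ∈ T, p) ?_ ?_
    · intro T hT
      obtain ⟨h1, h2⟩ := Finset.mem_filter.mp (Finset.mem_coe.mp hT)
      refine Finset.mem_coe.mpr (Finset.mem_Icc.mpr ⟨?_, h2⟩)
      exact Finset.prod_pos fun p hp => (hP p (Finset.mem_powerset.mp h1 hp)).pos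
    · intro T hT T' hT' h
      exact prod_inj hP (Finset.mem_powerset.mp (Finset.mem_filter.mp (Finset.mem_coe.mp hT)).1)
        (Finset.mem_powerset.mp (Finset.mem_filter.mp (Finset.mem_coe.mp hT')).1) h
  simpa using h1

/-- the bad primes -/
noncomputable def Vb {N : ℕ} (χ : DirichletCharacter ℂ N) (z x : ℕ) : Finset ℕ :=
  (range x).filter fun p => p.Prime ∧ z < p ∧ χ (p : ZMod N) ≠ 1

/-- upper bound for the sifted sum of `1 - Re χ` -/
theorem sifted_le {N : ℕ} (hN1 : 1 < N) (χ : DirichletCharacter ℂ N) {z0 z : ℕ} (hW1 : 1 < Wz z0)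
    (hW : Wz z0 ∣ N) (hz : 0 < z) (P : Finset ℕ) (hP : ∀ p, p.Prime → z0 < p → p ≤ z → p ∈ P)
    (x : ℕ) :
    ∑ m ∈ (range x).filter (fun m => ∀ p ∈ P, ¬ p ∣ m), (w1 (Wz z0) m - (χ (m : ZMod N)).re) ≤
      2 * (Vb χ z x).card * ((x : ℝ) / z) := by
  have hzr : (0 : ℝ) < z := by exact_mod_cast hz
  -- pointwise bound
  have hpt : ∀ m ∈ (range x).filter (fun m => ∀ p ∈ P, ¬ p ∣ m),
      w1 (Wz z0) m - (χ (m : ZMod N)).re ≤
        ∑ q ∈ Vb χ z x, if (q ∣ m ∧ 0 < m) then (2 : ℝ) else 0 := by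
    intro m hm
    obtain ⟨hmx, hmP⟩ := Finset.mem_filter.mp hm
    have hmx := Finset.mem_range.mp hmx
    have hnn : 0 ≤ ∑ q ∈ Vb χ z x, if (q ∣ m ∧ 0 < m) then (2 : ℝ) else 0 :=
      Finset.sum_nonneg fun q _ => by split_ifs <;> norm_num
    have h2 : w1 (Wz z0) m - (χ (m : ZMod N)).re ≤ 2 := by
      have h3 := (abs_le.mp (w1_le (Wz z0) m)).2
      have h4 := (abs_le.mp (re_chi_le χ (m : ZMod N))).1
      linarith
    by_cases hcop : m.Coprime (Wz z0)
    · have hm0 : m ≠ 0 := by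
        rintro rfl
        rw [Nat.coprime_zero_left] at hcop
        omega
      by_cases hall : ∀ q : ℕ, q.Prime → q ∣ m → χ (q : ZMod N) = 1
      · have h5 := chi_eq_one χ m hm0 hall
        have h6 : w1 (Wz z0) m = 1 := by unfold w1; rw [if_pos hcop]
        rw [h5, h6, Complex.one_re, sub_self]
        exact hnn
      · push Not at hall
        obtain ⟨q, hq, hqm, hqχ⟩ := hall
        have hqz : z < q := by
          by_contra hcon
          push Not at hcon
          by_cases hq0 : q ≤ z0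
          · have h7 : q ∣ Wz z0 := dvd_Wz hq hq0
            have h8 := Nat.dvd_gcd hqm h7
            rw [hcop] at h8
            exact hq.one_lt.ne' (Nat.dvd_one.mp h8)
          · exact hmP q (hP q hq (by omega) hcon) hqm
        have hqV : q ∈ Vb χ z x := by
          refine Finset.mem_filter.mpr ⟨Finset.mem_range.mpr ?_, hq, hqz, hqχ⟩
          exact (Nat.le_of_dvd (Nat.pos_of_ne_zero hm0) hqm).trans_lt hmx
        refine h2.trans ?_
        have h9 := Finset.single_le_sum (f := fun q => if (q ∣ m ∧ 0 < m) then (2 : ℝ) else 0)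
          (fun q _ => by split_ifs <;> norm_num) hqV
        simpa [hqm, Nat.pos_of_ne_zero hm0] using h9
    · have h6 : w1 (Wz z0) m = 0 := by unfold w1; rw [if_neg hcop]
      have h7 : χ (m : ZMod N) = 0 := by
        apply χ.map_nonunit
        rw [ZMod.isUnit_iff_coprime]
        intro hc
        exact hcop (hc.coprime_dvd_right hW)
      rw [h6, h7, Complex.zero_re, sub_zero]
      exact hnn
  refine (Finset.sum_le_sum hpt).trans ?_
  rw [Finset.sum_comm]
  have hq : ∀ q ∈ Vb χ z x, ∑ m ∈ (range x).filter (fun m => ∀ p ∈ P, ¬ p ∣ m),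
      (if (q ∣ m ∧ 0 < m) then (2 : ℝ) else 0) ≤ 2 * ((x : ℝ) / z) := by
    intro q hqV
    obtain ⟨-, hqp, hqz, -⟩ := Finset.mem_filter.mp hqV
    rw [← Finset.sum_filter, Finset.sum_const, nsmul_eq_mul, mul_comm]
    refine mul_le_mul_of_nonneg_left ?_ (by norm_num)
    have h1 : (Finset.filter (fun m => q ∣ m ∧ 0 < m)
        ((range x).filter (fun m => ∀ p ∈ P, ¬ p ∣ m))).card ≤ (Finset.Icc 1 (x / q)).card := by
      refine Finset.card_le_card_of_injOn (fun m => m / q) ?_ ?_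
      · intro m hm
        obtain ⟨hm1, hm2, hm3⟩ := Finset.mem_filter.mp (Finset.mem_coe.mp hm)
        have hm4 := Finset.mem_range.mp (Finset.mem_filter.mp hm1).1
        refine Finset.mem_coe.mpr (Finset.mem_Icc.mpr ⟨?_, ?_⟩)
        · exact Nat.div_pos (Nat.le_of_dvd hm3 hm2) hqp.pos
        · exact Nat.div_le_div_right hm4.le
      · intro a ha b hb hab
        obtain ⟨-, ha2, -⟩ := Finset.mem_filter.mp (Finset.mem_coe.mp ha)
        obtain ⟨-, hb2, -⟩ := Finset.mem_filter.mp (Finset.mem_coe.mp hb)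
        obtain ⟨a', rfl⟩ := ha2
        obtain ⟨b', rfl⟩ := hb2
        simp only [Nat.mul_div_cancel_left _ hqp.pos] at hab
        rw [hab]
    rw [Nat.card_Icc, Nat.add_sub_cancel] at h1
    have h1' : ((Finset.filter (fun m => q ∣ m ∧ 0 < m)
        ((range x).filter (fun m => ∀ p ∈ P, ¬ p ∣ m))).card : ℝ) ≤ ((x / q : ℕ) : ℝ) := by
      exact_mod_cast h1
    refine h1'.trans (Nat.cast_div_le.trans ?_)
    have hqr : (z : ℝ) < q := by exact_mod_cast hqz
    gcongr
  refine (Finset.sum_le_sum hq).trans ?_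
  rw [Finset.sum_const, nsmul_eq_mul]
  apply le_of_eq
  ring

end Pool.Agent.V7H55.ZC
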